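import Mathlib

set_option autoImplicit false

/-!
Real inequalities for effective weights.
-/

namespace Pool.Agent.Lib.MP_c21bd4_co

/-- the self-dual interval with upper endpoint `x` -/
def J (q x : ℝ) : Set ℝ := Set.Icc (q / x) x

lemma neg_of_mem {q x t : ℝ} (hx : x < 0) (ht : t ∈ J q x) : t < 0 := lt_of_le_of_lt ht.2 hx

lemma inv_mem {q x t : ℝ} (hq : 0 < q) (hx : x < 0) (ht : t ∈ J q x) : q / t ∈ J q x := by
  have h0 := neg_of_mem hx ht
  obtain ⟨h1, h2⟩ := ht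
  constructor
  · rw [div_le_div_left_of_neg' hq hx h0]
    exact h2
  · rw [div_le_iff_of_neg hx] at h1
    rw [div_le_iff_of_neg h0]
    linarith
where
  div_le_div_left_of_neg' {q x t : ℝ} (hq : 0 < q) (hx : x < 0) (ht : t < 0) :
      q / x ≤ q / t ↔ t ≤ x := by
    rw [div_le_iff_of_neg hx, div_mul_eq_mul_div, div_le_iff_of_neg ht]
    constructor
    · intro h; nlinarith
    · intro h; nlinarith

lemma J_mono {q x x' : ℝ} (hq : 0 < q) (hx' : x' < 0) (hxx : x ≤ x') : J q x ⊆ J q x' := by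
  intro t ht
  have hx : x < 0 := lt_of_le_of_lt hxx hx'
  refine ⟨le_trans ?_ ht.1, ht.2.trans hxx⟩
  rw [inv_mem.div_le_div_left_of_neg' hq hx' hx]
  exact hxx

/-- closure of `J` under parallel connection -/
lemma par_mem {q x u w : ℝ} (hq : 0 < q) (hx : x < 0) (hx1 : -1 ≤ x) (hxq : -q ≤ x)
    (hc : 0 ≤ x ^ 3 - 2 * q * x - q ^ 2) (hu : u ∈ J q x) (hw : w ∈ J q x) :
    (1 + u) * (1 + w) - 1 ∈ J q x := by
  have hy : q / x * x = q := div_mul_cancel₀ q hx.ne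
  obtain ⟨hu1, hu2⟩ := hu
  obtain ⟨hw1, hw2⟩ := hw
  unfold J
  generalize q / x = y at *
  have hy1 : y ≤ -1 := by
    by_contra hcon
    push Not at hcon
    nlinarith
  have hsq : (1 + y) ^ 2 ≤ 1 + x := by
    by_contra hcon
    push Not at hcon
    have hxne := hx.ne
    have h1 : 0 < x ^ 2 := by positivity
    have h2 : x ^ 2 * (1 + x) < x ^ 2 * (1 + y) ^ 2 := mul_lt_mul_of_pos_left hcon h1
    have h3 : x ^ 2 * (1 + y) ^ 2 = (x + q) ^ 2 := by rw [← hy]; ring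
    rw [h3] at h2
    nlinarith
  constructor
  · rcases le_total 0 (1 + u) with h1 | h1 <;> rcases le_total 0 (1 + w) with h2 | h2
    · have := mul_nonneg h1 h2; linarith
    · nlinarith
    · nlinarith
    · have := mul_nonneg_of_nonpos_of_nonpos h1 h2; linarith
  · rcases le_total 0 (1 + u) with h1 | h1 <;> rcases le_total 0 (1 + w) with h2 | h2
    · nlinarith
    · have := mul_nonpos_of_nonneg_of_nonpos h1 h2; linarith
    · have := mul_nonpos_of_nonpos_of_nonneg h1 h2; linarith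
    · have k1 : 0 ≤ (1 + y) * ((1 + y) - (1 + w)) :=
        mul_nonneg_of_nonpos_of_nonpos (by linarith) (by linarith)
      have k2 : 0 ≤ (1 + w) * ((1 + y) - (1 + u)) :=
        mul_nonneg_of_nonpos_of_nonpos h2 (by linarith)
      nlinarith

/-- sign and effective weight of a network -/
def Ok (q x σ c0 c1 : ℝ) : Prop := 0 < σ * c0 ∧ q * c1 / c0 ∈ J q x

lemma Ok.ne {q x σ c0 c1 : ℝ} (h : Ok q x σ c0 c1) : c0 ≠ 0 := by
  rintro rfl; have := h.1; simp at this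

/-- parallel composition -/
lemma ok_par {q x σ τ c0 c1 d0 d1 : ℝ} (hq : 0 < q) (hx : x < 0) (hx1 : -1 ≤ x)
    (hxq : -q ≤ x) (hc : 0 ≤ x ^ 3 - 2 * q * x - q ^ 2)
    (h1 : Ok q x σ c0 c1) (h2 : Ok q x τ d0 d1) :
    Ok q x (σ * τ) (c0 * d0) (c0 * d1 + c1 * d0 + q * (c1 * d1)) := by
  have n1 := h1.ne
  have n2 := h2.ne
  refine ⟨?_, ?_⟩
  · have := mul_pos h1.1 h2.1
    calc 0 < (σ * c0) * (τ * d0) := this
      _ = _ := by ring
  · have := par_mem hq hx hx1 hxq hc h1.2 h2.2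
    convert this using 1
    field_simp
    ring

/-- the effective weight in series, from the dual parallel one -/
lemma ser_aux {q u w : ℝ} (hu : u ≠ 0) (hw : w ≠ 0) :
    ((1 + q / u) * (1 + q / w) - 1) * (u * w) = q * (q + u + w) := by
  field_simp
  ring

/-- series composition: general form. `K` is any interval containing the dual parallel weight. -/
lemma ser_val {q σ τ c0 c1 d0 d1 t : ℝ} (hq : 0 < q)
    (h1 : 0 < σ * c0) (h2 : 0 < τ * d0) (hu : q * c1 / c0 < 0) (hw : q * d1 / d0 < 0)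
    (ht : t = (1 + q / (q * c1 / c0)) * (1 + q / (q * d1 / d0)) - 1) (htneg : t < 0) :
    0 < (-(σ * τ)) * (c0 * d0 + c0 * d1 + c1 * d0) ∧
      q * (c1 * d1) / (c0 * d0 + c0 * d1 + c1 * d0) = q / t := by
  have n1 : c0 ≠ 0 := by rintro rfl; simp at h1
  have n2 : d0 ≠ 0 := by rintro rfl; simp at h2
  have e := ser_aux (q := q) hu.ne hw.ne
  rw [← ht] at e
  have huw : 0 < (q * c1 / c0) * (q * d1 / d0) := mul_pos_of_neg_of_neg hu hw
  have hneg : q + q * c1 / c0 + q * d1 / d0 < 0 := by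
    by_contra hcon
    push Not at hcon
    have : 0 ≤ q * (q + q * c1 / c0 + q * d1 / d0) := mul_nonneg hq.le hcon
    rw [← e] at this
    have h3 : t * (q * c1 / c0 * (q * d1 / d0)) < 0 := mul_neg_of_neg_of_pos htneg huw
    linarith
  have e2 : c0 * d0 + c0 * d1 + c1 * d0 = (c0 * d0) * (q + q * c1 / c0 + q * d1 / d0) / q := by
    field_simp
    ring
  have hpos : 0 < (-(σ * τ)) * (c0 * d0 + c0 * d1 + c1 * d0) := by
    rw [e2]
    have h3 : 0 < (σ * c0) * (τ * d0) := mul_pos h1 h2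
    have : (-(σ * τ)) * ((c0 * d0) * (q + q * c1 / c0 + q * d1 / d0) / q) =
        ((σ * c0) * (τ * d0)) * (-(q + q * c1 / c0 + q * d1 / d0) / q) := by ring
    rw [this]
    apply mul_pos h3
    apply div_pos _ hq
    linarith
  refine ⟨hpos, ?_⟩
  have hne : c0 * d0 + c0 * d1 + c1 * d0 ≠ 0 := by
    intro h'; rw [h'] at hpos; simp at hpos
  rw [div_eq_div_iff hne htneg.ne]
  have e3 : t * (q * c1 / c0 * (q * d1 / d0)) * (c0 * d0) =
      q * ((c0 * d0) * (q + q * c1 / c0 + q * d1 / d0)) := by rw [e]; ring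
  rw [e2]
  have e4 : q * c1 / c0 * (q * d1 / d0) * (c0 * d0) = q ^ 2 * (c1 * d1) := by
    field_simp
  have e5 : t * (q ^ 2 * (c1 * d1)) = q * ((c0 * d0) * (q + q * c1 / c0 + q * d1 / d0)) := by
    rw [← e4, ← e3]; ring
  have hq' : q ≠ 0 := hq.ne'
  field_simp
  field_simp at e5
  linarith

/-- series composition -/
lemma ok_ser {q x σ τ c0 c1 d0 d1 : ℝ} (hq : 0 < q) (hx : x < 0) (hx1 : -1 ≤ x)
    (hxq : -q ≤ x) (hc : 0 ≤ x ^ 3 - 2 * q * x - q ^ 2)
    (h1 : Ok q x σ c0 c1) (h2 : Ok q x τ d0 d1) :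
    Ok q x (-(σ * τ)) (c0 * d0 + c0 * d1 + c1 * d0) (c1 * d1) := by
  have k := par_mem hq hx hx1 hxq hc (inv_mem hq hx h1.2) (inv_mem hq hx h2.2)
  obtain ⟨k1, k2⟩ := ser_val hq h1.1 h2.1 (neg_of_mem hx h1.2) (neg_of_mem hx h2.2) rfl
    (neg_of_mem hx k)
  refine ⟨k1, ?_⟩
  rw [k2]
  exact inv_mem hq hx k

/-- the effective weight of an `R` composition as a weighted average -/
lemma R_val {q σ τ c0 c1 d0 d1 e0 e1 : ℝ} (hq : 0 < q)
    (hc0 : 0 < σ * c0) (hd0 : 0 < τ * d0) (he0 : 0 < -τ * e0)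
    (hc1 : q * c1 / c0 < 0) (hσ : σ * σ = 1) (hτ : τ * τ = 1) :
    0 < (σ * τ) * (c0 * d0 + c1 * e0) ∧
      q * (c0 * d1 + c1 * e1) / (c0 * d0 + c1 * e0) =
        ((q * (τ * d0)) * (q * d1 / d0) + (-(q * c1 / c0)) * (-τ * e0) * (q * e1 / e0)) /
          (q * (τ * d0) + (-(q * c1 / c0)) * (-τ * e0)) := by
  have n1 : c0 ≠ 0 := by rintro rfl; simp at hc0
  have n2 : d0 ≠ 0 := by rintro rfl; simp at hd0
  have n3 : e0 ≠ 0 := by rintro rfl; simp at he0
  have hW : 0 < q * (τ * d0) + (-(q * c1 / c0)) * (-τ * e0) := by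
    have h1 : 0 < q * (τ * d0) := mul_pos hq hd0
    have h2 : 0 < (-(q * c1 / c0)) * (-τ * e0) := mul_pos (by linarith) he0
    linarith
  have e : q * ((σ * τ) * (c0 * d0 + c1 * e0)) =
      (σ * c0) * (q * (τ * d0) + (-(q * c1 / c0)) * (-τ * e0)) := by
    field_simp
  have hpos : 0 < (σ * τ) * (c0 * d0 + c1 * e0) := by
    have : 0 < q * ((σ * τ) * (c0 * d0 + c1 * e0)) := by rw [e]; exact mul_pos hc0 hW
    exact (mul_pos_iff_of_pos_left hq).mp this
  refine ⟨hpos, ?_⟩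
  have hne : c0 * d0 + c1 * e0 ≠ 0 := by
    intro h'; rw [h'] at hpos; simp at hpos
  rw [div_eq_div_iff hne hW.ne']
  field_simp

lemma avg_mem {q x α β a b : ℝ} (hα : 0 < α) (hβ : 0 < β) (ha : a ∈ J q x) (hb : b ∈ J q x) :
    (α * a + β * b) / (α + β) ∈ J q x := by
  have hW : 0 < α + β := add_pos hα hβ
  constructor
  · rw [le_div_iff₀ hW]
    have h1 := mul_le_mul_of_nonneg_left ha.1 hα.le
    have h2 := mul_le_mul_of_nonneg_left hb.1 hβ.le
    linarith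
  · rw [div_le_iff₀ hW]
    have h1 := mul_le_mul_of_nonneg_left ha.2 hα.le
    have h2 := mul_le_mul_of_nonneg_left hb.2 hβ.le
    linarith

/-- `R` composition -/
lemma ok_R {q x σ τ c0 c1 d0 d1 e0 e1 : ℝ} (hq : 0 < q) (hx : x < 0)
    (hσ : σ * σ = 1) (hτ : τ * τ = 1)
    (hc : Ok q x σ c0 c1) (hd : Ok q x τ d0 d1) (he : Ok q x (-τ) e0 e1) :
    Ok q x (σ * τ) (c0 * d0 + c1 * e0) (c0 * d1 + c1 * e1) := by
  obtain ⟨k1, k2⟩ := R_val (d1 := d1) (e1 := e1) hq hc.1 hd.1 he.1 (neg_of_mem hx hc.2) hσ hτ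
  refine ⟨k1, ?_⟩
  rw [k2]
  apply avg_mem _ _ hd.2 he.2
  · exact mul_pos hq hd.1
  · exact mul_pos (by have := neg_of_mem hx hc.2; linarith) he.1

end Pool.Agent.Lib.MP_c21bd4_co
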