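import Mathlib
import Pool.Agent.Lib.MP_c21bd4_co.Ineq

set_option autoImplicit false

/-!
Real inequalities for the asymptotic argument.
-/

namespace Pool.Agent.Lib.MP_c21bd4_co

lemma mem_J_iff {q x t : ℝ} (hx : x < 0) : t ∈ J q x ↔ t * x ≤ q ∧ t ≤ x := by
  unfold J
  rw [Set.mem_Icc, div_le_iff_of_neg hx]

/-- product bounds -/
lemma prod_le {a1 a2 b1 b2 u w c : ℝ} (ha1 : a1 ≤ 0) (ha2 : 0 ≤ a2) (hb1 : b1 ≤ 0)
    (hb2 : 0 ≤ b2) (hu1 : a1 ≤ u) (hu2 : u ≤ a2) (hw1 : b1 ≤ w) (hw2 : w ≤ b2)
    (h1 : a1 * b1 ≤ c) (h2 : a2 * b2 ≤ c) : u * w ≤ c := by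
  rcases le_total 0 u with h | h <;> rcases le_total 0 w with h' | h'
  · have k1 : 0 ≤ (a2 - u) * w := mul_nonneg (by linarith) h'
    have k2 : 0 ≤ a2 * (b2 - w) := mul_nonneg ha2 (by linarith)
    nlinarith
  · have := mul_nonpos_of_nonneg_of_nonpos h h'
    have := mul_nonneg ha2 hb2
    linarith
  · have := mul_nonpos_of_nonpos_of_nonneg h h'
    have := mul_nonneg ha2 hb2
    linarith
  · have k1 : 0 ≤ (a1 - u) * w := mul_nonneg_of_nonpos_of_nonpos (by linarith) h'
    have k2 : 0 ≤ a1 * (b1 - w) := mul_nonneg_of_nonpos_of_nonpos ha1 (by linarith)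
    nlinarith

lemma le_prod {a1 a2 b1 b2 u w c : ℝ} (ha1 : a1 ≤ 0) (ha2 : 0 ≤ a2) (hb1 : b1 ≤ 0)
    (hb2 : 0 ≤ b2) (hu1 : a1 ≤ u) (hu2 : u ≤ a2) (hw1 : b1 ≤ w) (hw2 : w ≤ b2)
    (h1 : c ≤ a1 * b2) (h2 : c ≤ a2 * b1) : c ≤ u * w := by
  rcases le_total 0 u with h | h <;> rcases le_total 0 w with h' | h'
  · have := mul_nonneg h h'
    have := mul_nonpos_of_nonneg_of_nonpos ha2 hb1
    linarith
  · have k1 : 0 ≤ (a2 - u) * (-w) := mul_nonneg (by linarith) (by linarith)
    have k2 : 0 ≤ a2 * (w - b1) := mul_nonneg ha2 (by linarith)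
    nlinarith
  · have k1 : 0 ≤ (u - a1) * w := mul_nonneg (by linarith) h'
    have k2 : 0 ≤ (-a1) * (b2 - w) := mul_nonneg (by linarith) (by linarith)
    nlinarith
  · have := mul_nonneg_of_nonpos_of_nonpos h h'
    have := mul_nonpos_of_nonneg_of_nonpos ha2 hb1
    linarith

/-- the inequalities that make the bound `x` improve to `c` -/
structure StepCond (q x0 x c T : ℝ) : Prop where
  hc : c < 0
  i : (1 + q / x) * (1 + q / x0) - 1 ≤ c
  ii : (1 + x) * (1 + x0) - 1 ≤ c
  iii : q / c ≤ (1 + q / x) * (1 + x0) - 1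
  iv : q / c ≤ (1 + x) * (1 + q / x0) - 1
  v : T ≤ c
  vi : T + (1 - -x0 / min 1 q) * (x - T) ≤ c

lemma one_add_div_nonpos {q x : ℝ} (hx : x < 0) (h2 : -q ≤ x) : 1 + q / x ≤ 0 := by
  have : q / x ≤ -1 := by
    rw [div_le_iff_of_neg hx]; linarith
  linarith

/-- parallel step -/
lemma par_step {q x0 x c T u w : ℝ} (hq : 0 < q) (hx0 : x0 < 0) (hx01 : -1 ≤ x0)
    (hx0q : -q ≤ x0) (hx : x < 0) (hx1 : -1 ≤ x) (hxq : -q ≤ x) (hS : StepCond q x0 x c T)
    (hu : u ∈ J q x) (hw : w ∈ J q x0) : (1 + u) * (1 + w) - 1 ∈ J q c := by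
  have k1 := one_add_div_nonpos hx hxq
  have k2 := one_add_div_nonpos hx0 hx0q
  constructor
  · have := le_prod (c := 1 + q / c) k1 (show 0 ≤ 1 + x by linarith) k2
      (show 0 ≤ 1 + x0 by linarith) (u := 1 + u) (w := 1 + w) (by linarith [hu.1])
      (by linarith [hu.2]) (by linarith [hw.1]) (by linarith [hw.2])
      (by linarith [hS.iii]) (by linarith [hS.iv])
    linarith
  · have := prod_le (c := 1 + c) k1 (show 0 ≤ 1 + x by linarith) k2
      (show 0 ≤ 1 + x0 by linarith) (u := 1 + u) (w := 1 + w) (by linarith [hu.1])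
      (by linarith [hu.2]) (by linarith [hw.1]) (by linarith [hw.2])
      (by linarith [hS.i]) (by linarith [hS.ii])
    linarith

/-- the upper bound in the gain lemma -/
lemma gain_upper {q ξ α β a b x T s c : ℝ} (hq : 0 < q) (hξ : 0 < ξ) (hα : 0 < α) (hβ : 0 < β)
    (ha : a ≤ x) (hb : b ≤ x) (hT : T ≤ x)
    (h1 : α * a + 1 * (β * b) ≤ T * (α + 1 * β)) (h2 : α * a + q * (β * b) ≤ T * (α + q * β))
    (hs1 : ξ ≤ s) (hs2 : s * ξ ≤ q) (hξ1 : ξ ≤ min 1 q)
    (hc : T ≤ c) (hc' : T + (1 - ξ / min 1 q) * (x - T) ≤ c) :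
    α * a + s * (β * b) ≤ c * (α + s * β) := by
  -- normalise the two points
  obtain ⟨s1, s2, hs12, hs1le, hs1eq, hs1pos, k1, k2⟩ : ∃ s1 s2 : ℝ, s1 * s2 = q ∧ s1 ≤ s2 ∧
      s1 = min 1 q ∧ 0 < s1 ∧ α * (a - T) + s1 * (β * (b - T)) ≤ 0 ∧
      α * (a - T) + s2 * (β * (b - T)) ≤ 0 := by
    rcases le_total 1 q with h | h
    · refine ⟨1, q, by ring, h, by rw [min_eq_left h], by norm_num, ?_, ?_⟩
      · nlinarith
      · nlinarith
    · refine ⟨q, 1, by ring, h, by rw [min_eq_right h], hq, ?_, ?_⟩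
      · nlinarith
      · nlinarith
  rw [← hs1eq] at hξ1 hc'
  have hspos : 0 < s := lt_of_lt_of_le hξ hs1
  have hW : 0 < α + s * β := by positivity
  have hs2pos : 0 < s2 := lt_of_lt_of_le hs1pos hs1le
  set γ := 1 - ξ / s1 with hγ
  have hγ0 : 0 ≤ γ := by
    rw [hγ, sub_nonneg, div_le_one hs1pos]; exact hξ1
  -- it suffices to bound the shifted quantity
  suffices hsuf : α * (a - T) + s * (β * (b - T)) ≤ (c - T) * (α + s * β) by nlinarith
  have hxT : 0 ≤ x - T := by linarith
  have hcT : 0 ≤ c - T := by linarith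
  have hcT' : γ * (x - T) ≤ c - T := by linarith
  have hRHS : 0 ≤ (c - T) * (α + s * β) := mul_nonneg hcT hW.le
  rcases le_total s s1 with hc1 | hc1
  · rcases le_total 0 (b - T) with hb0 | hb0
    · have : s * (β * (b - T)) ≤ s1 * (β * (b - T)) :=
        mul_le_mul_of_nonneg_right hc1 (by positivity)
      linarith
    · rcases le_total (a - T) 0 with ha0 | ha0
      · have e1 : α * (a - T) ≤ 0 := mul_nonpos_of_nonneg_of_nonpos hα.le ha0
        have e2 : s * (β * (b - T)) ≤ 0 :=
          mul_nonpos_of_nonneg_of_nonpos hspos.le (mul_nonpos_of_nonneg_of_nonpos hβ.le hb0)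
        linarith
      · -- `β (b-T) ≤ -α (a-T)/s1`
        have e1 : s1 * (α * (a - T) + s * (β * (b - T))) ≤ α * (a - T) * (s1 - s) := by
          nlinarith
        have e2 : α * (a - T) * (s1 - s) ≤ α * (x - T) * (s1 - ξ) := by
          have f1 : α * (a - T) ≤ α * (x - T) := mul_le_mul_of_nonneg_left (by linarith) hα.le
          have f2 : 0 ≤ α * (x - T) := by positivity
          have f3 : 0 ≤ s1 - s := by linarith
          calc α * (a - T) * (s1 - s) ≤ α * (x - T) * (s1 - s) :=
                mul_le_mul_of_nonneg_right f1 f3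
            _ ≤ α * (x - T) * (s1 - ξ) := mul_le_mul_of_nonneg_left (by linarith) f2
        have e3 : α * (x - T) * (s1 - ξ) = s1 * (α * (γ * (x - T))) := by
          rw [hγ]; field_simp
        have e4 : α * (a - T) + s * (β * (b - T)) ≤ α * (γ * (x - T)) := by
          rw [e3] at e2
          exact le_of_mul_le_mul_left (e1.trans e2) hs1pos
        have e5 : α * (γ * (x - T)) ≤ (c - T) * (α + s * β) := by
          have g1 : α * (γ * (x - T)) ≤ α * (c - T) := mul_le_mul_of_nonneg_left hcT' hα.le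
          have g2 : 0 ≤ (c - T) * (s * β) := by positivity
          nlinarith
        linarith
  · rcases le_total s s2 with hc2 | hc2
    · -- between
      have : (s2 - s1) * (α * (a - T) + s * (β * (b - T))) ≤ 0 := by
        have f1 : (s2 - s) * (α * (a - T) + s1 * (β * (b - T))) ≤ 0 :=
          mul_nonpos_of_nonneg_of_nonpos (by linarith) k1
        have f2 : (s - s1) * (α * (a - T) + s2 * (β * (b - T))) ≤ 0 :=
          mul_nonpos_of_nonneg_of_nonpos (by linarith) k2
        have f3 : (s2 - s1) * (α * (a - T) + s * (β * (b - T))) =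
          (s2 - s) * (α * (a - T) + s1 * (β * (b - T))) +
            (s - s1) * (α * (a - T) + s2 * (β * (b - T))) := by ring
        linarith
      rcases eq_or_lt_of_le hs1le with h12 | h12
      · have : s = s1 := le_antisymm (h12 ▸ hc2) hc1
        rw [this]; rw [this] at hRHS; linarith
      · have : α * (a - T) + s * (β * (b - T)) ≤ 0 := by
          by_contra hcon
          push Not at hcon
          have := mul_pos (show 0 < s2 - s1 by linarith) hcon
          linarith
        linarith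
    · rcases le_total (b - T) 0 with hb0 | hb0
      · have : s * (β * (b - T)) ≤ s2 * (β * (b - T)) :=
          mul_le_mul_of_nonpos_right hc2 (mul_nonpos_of_nonneg_of_nonpos hβ.le hb0)
        linarith
      · have e1 : α * (a - T) + s * (β * (b - T)) ≤ (s - s2) * (β * (b - T)) := by linarith
        have e2 : (s - s2) * (β * (b - T)) ≤ (s - s2) * (β * (x - T)) := by
          apply mul_le_mul_of_nonneg_left _ (by linarith)
          exact mul_le_mul_of_nonneg_left (by linarith) hβ.le
        -- `s - s2 ≤ s γ`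
        have e3 : s - s2 ≤ s * γ := by
          rw [hγ]
          have : s * (ξ / s1) ≤ s2 := by
            rw [← mul_div_assoc, div_le_iff₀ hs1pos, mul_comm s2 s1, hs12]
            exact hs2
          linarith
        have e4 : (s - s2) * (β * (x - T)) ≤ (s * γ) * (β * (x - T)) :=
          mul_le_mul_of_nonneg_right e3 (by positivity)
        have e5 : (s * γ) * (β * (x - T)) ≤ (c - T) * (α + s * β) := by
          have g1 : s * β * (γ * (x - T)) ≤ s * β * (c - T) :=
            mul_le_mul_of_nonneg_left hcT' (by positivity)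
          have g2 : 0 ≤ (c - T) * α := by positivity
          nlinarith
        linarith

/-- the gain lemma -/
lemma gain_mem {q x0 α β a b x T s c : ℝ} (hq : 0 < q) (hx0 : x0 < 0) (hx01 : -1 ≤ x0)
    (hx0q : -q ≤ x0) (hα : 0 < α) (hβ : 0 < β) (hx : x < 0)
    (ha : a ∈ J q x) (hb : b ∈ J q x) (hT : T ≤ x)
    (h1 : (α * a + β * b) / (α + β) ∈ J q T) (h2 : (α * a + q * β * b) / (α + q * β) ∈ J q T)
    (hs : -s ∈ J q x0) (hc0 : c < 0)
    (hc : T ≤ c) (hc' : T + (1 - -x0 / min 1 q) * (x - T) ≤ c) :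
    (α * a + s * β * b) / (α + s * β) ∈ J q c := by
  have hT0 : T < 0 := lt_of_le_of_lt hT hx
  rw [mem_J_iff hx0] at hs
  have hs1 : -x0 ≤ s := by linarith [hs.2]
  have hs2 : s * -x0 ≤ q := by linarith [hs.1]
  have hξ : 0 < -x0 := by linarith
  have hξ1 : -x0 ≤ min 1 q := le_min (by linarith) (by linarith)
  have hspos : 0 < s := by linarith
  have hW : 0 < α + s * β := by positivity
  have hW1 : 0 < α + β := by positivity
  have hW2 : 0 < α + q * β := by positivity
  have hWne := hW.ne'
  have hW1ne := hW1.ne'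
  have hW2ne := hW2.ne'
  rw [mem_J_iff hT0] at h1 h2
  have ha0 := neg_of_mem hx ha
  have hb0 := neg_of_mem hx hb
  have h1a : α * a + β * b ≤ T * (α + β) := by
    have := h1.2; rwa [div_le_iff₀ hW1] at this
  have h2a : α * a + q * β * b ≤ T * (α + q * β) := by
    have := h2.2; rwa [div_le_iff₀ hW2] at this
  have h1b : T * (α * a + β * b) ≤ q * (α + β) := by
    have := h1.1
    rw [div_mul_eq_mul_div, div_le_iff₀ hW1] at this
    linarith
  have h2b : T * (α * a + q * β * b) ≤ q * (α + q * β) := by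
    have := h2.1
    rw [div_mul_eq_mul_div, div_le_iff₀ hW2] at this
    linarith
  rw [mem_J_iff hc0]
  constructor
  · rw [div_mul_eq_mul_div, div_le_iff₀ hW]
    have ia := inv_mem hq hx ha
    have ib := inv_mem hq hx hb
    have hane := ha0.ne
    have hbne := hb0.ne
    have ea : (-α * a) * (q / a) = -α * q := by field_simp
    have eb : (-β * b) * (q / b) = -β * q := by field_simp
    have hα' : 0 < -α * a := by
      have := mul_pos_of_neg_of_neg (show -α < 0 by linarith) ha0; linarith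
    have hβ' : 0 < -β * b := by
      have := mul_pos_of_neg_of_neg (show -β < 0 by linarith) hb0; linarith
    have := gain_upper (q := q) (ξ := -x0) (α := -α * a) (β := -β * b) (a := q / a)
      (b := q / b) (x := x) (T := T) (s := s) (c := c) hq hξ hα' hβ' ia.2 ib.2 hT
      (by rw [ea, eb]; linarith) (by rw [ea, eb]; linarith) hs1 hs2 hξ1 hc hc'
    rw [ea, eb] at this
    linarith
  · rw [div_le_iff₀ hW]
    have := gain_upper (q := q) (ξ := -x0) (α := α) (β := β) (a := a)
      (b := b) (x := x) (T := T) (s := s) (c := c) hq hξ hα hβ ha.2 hb.2 hT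
      (by linarith) (by linarith) hs1 hs2 hξ1 hc hc'
    linarith

/-- threshold function -/
noncomputable def theta (q x : ℝ) : ℝ :=
  if q < 1 then -(q + x) / (1 + x) else -(q * (1 + x)) / (q + x)

lemma theta_neg {q x : ℝ} (hq : 0 < q) (h1 : -1 < x) (h2 : -q < x) : theta q x < 0 := by
  unfold theta
  split_ifs
  · apply div_neg_of_neg_of_pos <;> linarith
  · apply div_neg_of_neg_of_pos _ (by linarith)
    have : 0 < q * (1 + x) := mul_pos hq (by linarith)
    linarith

lemma theta_gt {q x : ℝ} (hq : 0 < q) (hq1 : q ≠ 1) (h0 : x < 0) (h1 : -1 < x) (h2 : -q < x) :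
    -1 < theta q x ∧ -q < theta q x := by
  unfold theta
  split_ifs with h
  · constructor
    · rw [lt_div_iff₀ (by linarith)]; linarith
    · rw [lt_div_iff₀ (by linarith)]; nlinarith
  · have h' : 1 < q := lt_of_le_of_ne (not_lt.mp h) (Ne.symm hq1)
    constructor
    · rw [lt_div_iff₀ (by linarith)]; nlinarith
    · rw [lt_div_iff₀ (by linarith)]; nlinarith

lemma theta_anti {q x y : ℝ} (hq1 : q ≠ 1) (hq : 0 < q) (h1 : -1 < x) (h2 : -q < x)
    (hxy : x < y) : theta q y < theta q x := by
  unfold theta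
  split_ifs with h
  · rw [div_lt_div_iff₀ (by linarith) (by linarith)]
    nlinarith
  · have h' : 1 < q := lt_of_le_of_ne (not_lt.mp h) (Ne.symm hq1)
    rw [div_lt_div_iff₀ (by linarith) (by linarith)]
    have : 0 < q * ((q - 1) * (y - x)) := by
      apply mul_pos hq; apply mul_pos <;> linarith
    nlinarith

/-- goodness for extreme weights gives the bound `theta` -/
lemma mem_theta {q x h : ℝ} (hq : 0 < q) (hx : x < 0) (h1 : -1 < x)
    (h2 : -q < x) (ha : 0 < (q - 1) * ((q + h) + x * (1 + h)))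
    (hb : 0 < (q - 1) * ((q + h) + q / x * (1 + h))) : h ∈ J q (theta q x) := by
  rw [mem_J_iff (theta_neg hq h1 h2)]
  have hxne := hx.ne
  have hb' : (q - 1) * (x * (q + h) + q * (1 + h)) < 0 := by
    have : (q - 1) * (x * (q + h) + q * (1 + h)) =
        x * ((q - 1) * ((q + h) + q / x * (1 + h))) := by
      field_simp
    rw [this]
    exact mul_neg_of_neg_of_pos hx hb
  have h1' : 0 < 1 + x := by linarith
  have h2' : 0 < q + x := by linarith
  unfold theta
  split_ifs with hq1
  · have hn : q - 1 < 0 := by linarith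
    have ha' : (q + h) + x * (1 + h) < 0 := by
      by_contra hcon
      push Not at hcon
      have := mul_nonpos_of_nonpos_of_nonneg hn.le hcon
      linarith
    have hb'' : 0 < x * (q + h) + q * (1 + h) := by
      by_contra hcon
      push Not at hcon
      have := mul_nonneg_of_nonpos_of_nonpos hn.le hcon
      linarith
    constructor
    · rw [mul_div_assoc', div_le_iff₀ h1']
      nlinarith
    · rw [le_div_iff₀ h1']
      nlinarith
  · have hn : 0 < q - 1 := by
      rcases eq_or_lt_of_le (not_lt.mp hq1) with h' | h'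
      · rw [← h'] at ha; simp at ha
      · linarith
    have ha' : 0 < (q + h) + x * (1 + h) := by
      by_contra hcon
      push Not at hcon
      have := mul_nonpos_of_nonneg_of_nonpos hn.le hcon
      linarith
    have hb'' : x * (q + h) + q * (1 + h) < 0 := by
      by_contra hcon
      push Not at hcon
      have := mul_nonneg hn.le hcon
      linarith
    constructor
    · rw [mul_div_assoc', div_le_iff₀ h2']
      nlinarith
    · rw [le_div_iff₀ h2']
      nlinarith

/-- conversely, a bound below `theta q x0` gives goodness -/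
lemma good_of_lt {q x0 x h w : ℝ} (hq : 0 < q) (hq1 : q ≠ 1) (hx0 : x0 < 0) (h01 : -1 < x0)
    (h0q : -q < x0) (hx1 : -1 < x) (hxq : -q < x) (hx : x < theta q x0)
    (hh : h ∈ J q x) (hw : w ∈ J q x0) : 0 < (q - 1) * ((q + h) + w * (1 + h)) := by
  have hθ := theta_neg hq h01 h0q
  have hxn : x < 0 := hx.trans hθ
  have hxne := hxn.ne
  have hx0ne := hx0.ne
  have a1 := one_add_div_nonpos hxn hxq.le
  have a2 := one_add_div_nonpos hx0 h0q.le
  have hxx : 0 < x * x0 := mul_pos_of_neg_of_neg hxn hx0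
  unfold theta at hx
  split_ifs at hx with hlt
  · rw [lt_div_iff₀ (by linarith)] at hx
    -- `(1+x)(1+x0) < 1-q`
    have e1 : (1 + x) * (1 + x0) < 1 - q := by linarith
    have e2 : (1 + q / x) * (1 + q / x0) < 1 - q := by
      have : (1 + q / x) * (1 + q / x0) - (1 - q) =
          q * ((1 + x) * (1 + x0) - (1 - q)) / (x * x0) := by
        field_simp; ring
      have h3 : q * ((1 + x) * (1 + x0) - (1 - q)) / (x * x0) < 0 := by
        apply div_neg_of_neg_of_pos _ hxx
        apply mul_neg_of_pos_of_neg hq; linarith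
      linarith
    obtain ⟨m, hm1, hm2, hm3⟩ : ∃ m, (1 + x) * (1 + x0) ≤ m ∧
        (1 + q / x) * (1 + q / x0) ≤ m ∧ m < 1 - q :=
      ⟨max ((1 + x) * (1 + x0)) ((1 + q / x) * (1 + q / x0)), le_max_left _ _,
        le_max_right _ _, max_lt e1 e2⟩
    have := prod_le (c := m) a1 (show 0 ≤ 1 + x by linarith) a2
      (show 0 ≤ 1 + x0 by linarith) (u := 1 + h) (w := 1 + w) (by linarith [hh.1])
      (by linarith [hh.2]) (by linarith [hw.1]) (by linarith [hw.2]) hm2 hm1
    apply mul_pos_of_neg_of_neg (by linarith)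
    nlinarith
  · have h' : 1 < q := lt_of_le_of_ne (not_lt.mp hlt) (Ne.symm hq1)
    rw [lt_div_iff₀ (by linarith)] at hx
    have e1 : 1 - q < (1 + x) * (1 + q / x0) := by
      have : (1 + x) * (1 + q / x0) - (1 - q) = (x * (q + x0) + q * (1 + x0)) / x0 := by
        field_simp; ring
      have h3 : 0 < (x * (q + x0) + q * (1 + x0)) / x0 :=
        div_pos_of_neg_of_neg (by linarith) hx0
      linarith
    have e2 : 1 - q < (1 + q / x) * (1 + x0) := by
      have : (1 + q / x) * (1 + x0) - (1 - q) = (x * (q + x0) + q * (1 + x0)) / x := by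
        field_simp; ring
      have h3 : 0 < (x * (q + x0) + q * (1 + x0)) / x :=
        div_pos_of_neg_of_neg (by linarith) hxn
      linarith
    obtain ⟨m, hm1, hm2, hm3⟩ : ∃ m, m ≤ (1 + x) * (1 + q / x0) ∧
        m ≤ (1 + q / x) * (1 + x0) ∧ 1 - q < m :=
      ⟨min ((1 + x) * (1 + q / x0)) ((1 + q / x) * (1 + x0)), min_le_left _ _,
        min_le_right _ _, lt_min e1 e2⟩
    have := le_prod (c := m) a1 (show 0 ≤ 1 + x by linarith) a2
      (show 0 ≤ 1 + x0 by linarith) (u := 1 + h) (w := 1 + w) (by linarith [hh.1])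
      (by linarith [hh.2]) (by linarith [hw.1]) (by linarith [hw.2]) hm2 hm1
    apply mul_pos (by linarith)
    nlinarith

end Pool.Agent.Lib.MP_c21bd4_co
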