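import Mathlib

set_option autoImplicit false

/-!
Integer valued matroid rank functions on finite sets, connectivity, contraction,
the two-terminal networks given by a two-separation, and the structure lemma.
-/

namespace Pool.Agent.Lib.MP_c21bd4_co

open Finset

variable {E : Type} [DecidableEq E]

/-- matroid rank functions -/
structure Rk (r : Finset E → ℤ) : Prop where
  empty : r ∅ = 0
  mono : ∀ A B, A ⊆ B → r A ≤ r B
  submod : ∀ A B, r (A ∪ B) + r (A ∩ B) ≤ r A + r B
  single : ∀ e, r {e} ≤ 1

/-- connectedness of the restriction to `G` -/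
def Conn (r : Finset E → ℤ) (G : Finset E) : Prop :=
  ∀ A, A ⊆ G → A.Nonempty → A ≠ G → r G + 1 ≤ r A + r (G \ A)

/-- contraction of `X` -/
def ctr (r : Finset E → ℤ) (X B : Finset E) : ℤ := r (B ∪ X) - r X

/-- modular defect -/
def dl (r : Finset E → ℤ) (A B : Finset E) : ℤ := r A + r B - r (A ∪ B)

/-- the matroid of the network `X` inside `X ∪ Y`, with basepoint `g`. -/
def sub (r : Finset E → ℤ) (X Y : Finset E) (g : E) (A : Finset E) : ℤ :=
  if g ∈ A then r ((A ∩ X) ∪ Y) - r Y + 1 else r (A ∩ X)

variable {r : Finset E → ℤ}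

lemma dl_comm (A B : Finset E) : dl r A B = dl r B A := by
  unfold dl; rw [union_comm]; ring

lemma Rk.dl_nonneg (h : Rk r) {A B : Finset E} (hd : Disjoint A B) : 0 ≤ dl r A B := by
  have := h.submod A B
  rw [disjoint_iff_inter_eq_empty.mp hd, h.empty] at this
  unfold dl; linarith

lemma Rk.dl_mono_left (h : Rk r) {A A' B : Finset E} (hA : A ⊆ A') (hd : Disjoint A' B) :
    dl r A B ≤ dl r A' B := by
  have := h.submod A' (A ∪ B)
  have e1 : A' ∪ (A ∪ B) = A' ∪ B := by
    rw [← union_assoc, union_eq_left.mpr hA]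
  have e2 : A' ∩ (A ∪ B) = A := by
    rw [inter_union_distrib_left, disjoint_iff_inter_eq_empty.mp hd, union_empty,
      inter_eq_right.mpr hA]
  rw [e1, e2] at this
  unfold dl; linarith

lemma Rk.dl_mono_right (h : Rk r) {A B B' : Finset E} (hB : B ⊆ B') (hd : Disjoint A B') :
    dl r A B ≤ dl r A B' := by
  rw [dl_comm A B, dl_comm A B']
  exact h.dl_mono_left hB hd.symm

lemma Rk.dl_prod (h : Rk r) {X Y A B : Finset E} (hd : Disjoint X Y)
    (hl : dl r X Y = 1) (hA : A ⊆ X) (hB : B ⊆ Y) :
    dl r A B = dl r A Y * dl r X B := by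
  have hAY : Disjoint A Y := disjoint_of_subset_left hA hd
  have hXB : Disjoint X B := disjoint_of_subset_right hB hd
  have hAB : Disjoint A B := disjoint_of_subset_left hA hXB
  have n1 := h.dl_nonneg hAY
  have n2 := h.dl_nonneg hXB
  have n3 := h.dl_nonneg hAB
  have m1 : dl r A Y ≤ 1 := hl ▸ h.dl_mono_left hA hd
  have m2 : dl r X B ≤ 1 := hl ▸ h.dl_mono_right hB hd
  have m3 : dl r A B ≤ dl r A Y := h.dl_mono_right hB hAY
  have m4 : dl r A B ≤ dl r X B := h.dl_mono_left hA hXB
  have hs := h.submod (A ∪ Y) (X ∪ B)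
  have e1 : (A ∪ Y) ∪ (X ∪ B) = X ∪ Y := by
    ext z; simp only [mem_union]
    constructor
    · rintro ((h1 | h1) | (h1 | h1))
      · exact Or.inl (hA h1)
      · exact Or.inr h1
      · exact Or.inl h1
      · exact Or.inr (hB h1)
    · rintro (h1 | h1)
      · exact Or.inr (Or.inl h1)
      · exact Or.inl (Or.inr h1)
  have e2 : (A ∪ Y) ∩ (X ∪ B) = A ∪ B := by
    ext z; simp only [mem_union, mem_inter]
    constructor
    · rintro ⟨h1 | h1, h2 | h2⟩
      · exact Or.inl h1
      · exact Or.inl h1
      · exact absurd h1 (disjoint_left.mp hd h2)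
      · exact Or.inr h2
    · rintro (h1 | h1)
      · exact ⟨Or.inl h1, Or.inl (hA h1)⟩
      · exact ⟨Or.inr (hB h1), Or.inr h1⟩
  rw [e1, e2] at hs
  unfold dl at *
  rcases (show r A + r Y - r (A ∪ Y) = 0 ∨ r A + r Y - r (A ∪ Y) = 1 by omega) with k1 | k1
  · rw [k1]; omega
  · rcases (show r X + r B - r (X ∪ B) = 0 ∨ r X + r B - r (X ∪ B) = 1 by omega) with k2 | k2
    · rw [k1, k2]; omega
    · rw [k1, k2]; omega

lemma Rk.ctr_rk (h : Rk r) (X : Finset E) : Rk (ctr r X) where
  empty := by simp [ctr]
  mono := by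
    intro A B hAB
    have := h.mono (A ∪ X) (B ∪ X) (union_subset_union_left hAB)
    unfold ctr; linarith
  submod := by
    intro A B
    have := h.submod (A ∪ X) (B ∪ X)
    have e1 : (A ∪ X) ∪ (B ∪ X) = (A ∪ B) ∪ X := by
      ext z; simp only [mem_union]; tauto
    have e2 : (A ∪ X) ∩ (B ∪ X) = (A ∩ B) ∪ X := by
      ext z; simp only [mem_union, mem_inter]; tauto
    rw [e1, e2] at this
    unfold ctr; linarith
  single := by
    intro e
    have h1 := h.submod {e} X
    have h2 := h.single e
    have h3 := h.mono ∅ ({e} ∩ X) (empty_subset _)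
    rw [h.empty] at h3
    unfold ctr; linarith

lemma Rk.sub_rk (h : Rk r) {X Y : Finset E} (hd : Disjoint X Y) (hl : dl r X Y = 1) {g : E}
    (hg : g ∉ X) : Rk (sub r X Y g) where
  empty := by simp [sub, h.empty]
  mono := by
    intro A B hAB
    have hABX : A ∩ X ⊆ B ∩ X := inter_subset_inter_right hAB
    unfold sub
    split_ifs with h1 h2 h2
    · have := h.mono ((A ∩ X) ∪ Y) ((B ∩ X) ∪ Y) (union_subset_union_left hABX)
      linarith
    · exact absurd (hAB h1) h2
    · have k1 := h.mono _ _ hABX
      have k2 := h.dl_mono_left (inter_subset_right : B ∩ X ⊆ X) hd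
      rw [hl] at k2
      unfold dl at k2
      linarith
    · exact h.mono _ _ hABX
  submod := by
    intro A B
    have eu : (A ∪ B) ∩ X = (A ∩ X) ∪ (B ∩ X) := union_inter_distrib_right A B X
    have ei : (A ∩ B) ∩ X = (A ∩ X) ∩ (B ∩ X) := by
      ext z; simp only [mem_inter]; tauto
    have hA : A ∩ X ⊆ X := inter_subset_right
    have hB : B ∩ X ⊆ X := inter_subset_right
    unfold sub
    rw [eu, ei]
    simp only [mem_union, mem_inter]
    generalize A ∩ X = A1 at *
    generalize B ∩ X = B1 at *
    by_cases h1 : g ∈ A <;> by_cases h2 : g ∈ B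
    · simp only [h1, h2, or_self, and_self, if_true]
      have := h.submod (A1 ∪ Y) (B1 ∪ Y)
      have e1 : (A1 ∪ Y) ∪ (B1 ∪ Y) = (A1 ∪ B1) ∪ Y := by
        ext z; simp only [mem_union]; tauto
      have e2 : (A1 ∪ Y) ∩ (B1 ∪ Y) = (A1 ∩ B1) ∪ Y := by
        ext z; simp only [mem_union, mem_inter]; tauto
      rw [e1, e2] at this
      linarith
    · simp only [h1, h2, true_or, and_false, if_true, if_false]
      have := h.submod (A1 ∪ Y) B1
      have e1 : (A1 ∪ Y) ∪ B1 = (A1 ∪ B1) ∪ Y := by
        ext z; simp only [mem_union]; tauto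
      have e2 : (A1 ∪ Y) ∩ B1 = A1 ∩ B1 := by
        ext z; simp only [mem_union, mem_inter]
        constructor
        · rintro ⟨h3 | h3, h4⟩
          · exact ⟨h3, h4⟩
          · exact absurd h3 (disjoint_left.mp hd (hB h4))
        · rintro ⟨h3, h4⟩
          exact ⟨Or.inl h3, h4⟩
      rw [e1, e2] at this
      linarith
    · simp only [h1, h2, or_true, false_and, if_true, if_false]
      have := h.submod A1 (B1 ∪ Y)
      have e1 : A1 ∪ (B1 ∪ Y) = (A1 ∪ B1) ∪ Y := by
        ext z; simp only [mem_union]; tauto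
      have e2 : A1 ∩ (B1 ∪ Y) = A1 ∩ B1 := by
        ext z; simp only [mem_union, mem_inter]
        constructor
        · rintro ⟨h3, h4 | h4⟩
          · exact ⟨h3, h4⟩
          · exact absurd h4 (disjoint_left.mp hd (hA h3))
        · rintro ⟨h3, h4⟩
          exact ⟨h3, Or.inl h4⟩
      rw [e1, e2] at this
      linarith
    · simp only [h1, h2, or_self, and_self, if_false]
      exact h.submod A1 B1
  single := by
    intro e
    unfold sub
    split_ifs with h1
    · have : g = e := by simpa using h1
      subst this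
      have e1 : ({g} : Finset E) ∩ X = ∅ := by
        ext z; simp only [mem_inter, mem_singleton]
        constructor
        · rintro ⟨rfl, h3⟩; exact absurd h3 hg
        · intro h3; exact absurd h3 (notMem_empty z)
      rw [e1, empty_union]; linarith
    · exact (h.mono _ _ inter_subset_left).trans (h.single e)

/-- connectedness in terms of disjoint unions -/
lemma Conn.apply {G A B : Finset E} (hc : Conn r G) (hG : A ∪ B = G) (hd : Disjoint A B)
    (hA : A.Nonempty) (hB : B.Nonempty) : r G + 1 ≤ r A + r B := by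
  have e : G \ A = B := by
    rw [← hG, union_sdiff_left, sdiff_eq_self_of_disjoint hd.symm]
  have hAG : A ⊆ G := hG ▸ subset_union_left
  have hne : A ≠ G := by
    rintro rfl
    rw [sdiff_self] at e
    rw [← e] at hB
    exact absurd rfl (nonempty_iff_ne_empty.mp hB)
  have := hc A hAG hA hne
  rwa [e] at this

lemma Conn.mk' {G : Finset E} (H : ∀ A B : Finset E, A ∪ B = G → Disjoint A B → A.Nonempty →
    B.Nonempty → r G + 1 ≤ r A + r B) : Conn r G := by
  intro A hA hne hAG
  refine H A (G \ A) ?_ ?_ hne ?_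
  · rw [union_comm, sdiff_union_of_subset hA]
  · exact disjoint_sdiff
  · rw [nonempty_iff_ne_empty]
    intro h
    rw [sdiff_eq_empty_iff_subset] at h
    exact hAG (subset_antisymm hA h)

/-- The network matroid of a two-separation of a connected matroid is connected. -/
lemma Conn.sub_conn (h : Rk r) {X Y : Finset E} (hd : Disjoint X Y) (hl : dl r X Y = 1)
    (hc : Conn r (X ∪ Y)) (hY : Y.Nonempty) {g : E} (hg : g ∉ X) :
    Conn (sub r X Y g) (insert g X) := by
  -- key computation for a part `A ⊆ X`, complement `insert g B`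
  have key : ∀ A B : Finset E, A ∪ B = X → Disjoint A B → A.Nonempty →
      sub r X Y g (insert g X) + 1 ≤ sub r X Y g A + sub r X Y g (insert g B) := by
    intro A B hAB hdAB hA
    have hAX : A ⊆ X := hAB ▸ subset_union_left
    have hBX : B ⊆ X := hAB ▸ subset_union_right
    have hgA : g ∉ A := fun h' => hg (hAX h')
    have hgB : g ∉ B := fun h' => hg (hBX h')
    have e1 : insert g X ∩ X = X := by
      ext z; simp only [mem_inter, mem_insert]; tauto
    have e2 : A ∩ X = A := inter_eq_left.mpr hAX
    have e3 : insert g B ∩ X = B := by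
      ext z; simp only [mem_inter, mem_insert]
      constructor
      · rintro ⟨rfl | h1, h2⟩
        · exact absurd h2 hg
        · exact h1
      · intro h1; exact ⟨Or.inr h1, hBX h1⟩
    have s1 : sub r X Y g (insert g X) = r (X ∪ Y) - r Y + 1 := by
      unfold sub; rw [if_pos (mem_insert_self g X), e1]
    have s2 : sub r X Y g A = r A := by
      unfold sub; rw [if_neg hgA, e2]
    have s3 : sub r X Y g (insert g B) = r (B ∪ Y) - r Y + 1 := by
      unfold sub; rw [if_pos (mem_insert_self g B), e3]
    rw [s1, s2, s3]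
    have := hc.apply (A := A) (B := B ∪ Y) (by rw [← union_assoc, hAB])
      (by
        rw [disjoint_union_right]
        exact ⟨hdAB, disjoint_of_subset_left hAX hd⟩) hA
      (hY.mono subset_union_right)
    linarith
  apply Conn.mk'
  intro A B hAB hdAB hA hB
  have hgm : g ∈ A ∪ B := hAB ▸ mem_insert_self g X
  rcases mem_union.mp hgm with hgA | hgB
  · have hgB : g ∉ B := disjoint_left.mp hdAB hgA
    have := key B (A.erase g) (by
      ext z
      have hz : z ∈ A ∪ B ↔ z ∈ insert g X := by rw [hAB]
      simp only [mem_union, mem_insert] at hz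
      simp only [mem_union, mem_erase]
      constructor
      · rintro (h1 | ⟨h1, h2⟩)
        · rcases hz.mp (Or.inr h1) with h3 | h3
          · subst h3; exact absurd h1 hgB
          · exact h3
        · rcases hz.mp (Or.inl h2) with h3 | h3
          · exact absurd h3 h1
          · exact h3
      · intro h1
        have hzg : z ≠ g := fun h' => hg (h' ▸ h1)
        rcases hz.mpr (Or.inr h1) with h3 | h3
        · exact Or.inr ⟨hzg, h3⟩
        · exact Or.inl h3)
      (disjoint_of_subset_right (erase_subset g A) hdAB.symm) hB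
    rw [insert_erase hgA] at this
    linarith
  · have hgA : g ∉ A := disjoint_right.mp hdAB hgB
    have := key A (B.erase g) (by
      ext z
      have hz : z ∈ A ∪ B ↔ z ∈ insert g X := by rw [hAB]
      simp only [mem_union, mem_insert] at hz
      simp only [mem_union, mem_erase]
      constructor
      · rintro (h1 | ⟨h1, h2⟩)
        · rcases hz.mp (Or.inl h1) with h3 | h3
          · subst h3; exact absurd h1 hgA
          · exact h3
        · rcases hz.mp (Or.inr h2) with h3 | h3
          · exact absurd h3 h1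
          · exact h3
      · intro h1
        have hzg : z ≠ g := fun h' => hg (h' ▸ h1)
        rcases hz.mpr (Or.inr h1) with h3 | h3
        · exact Or.inl h3
        · exact Or.inr ⟨hzg, h3⟩)
      (disjoint_of_subset_right (erase_subset g B) hdAB) hA
    rw [insert_erase hgB] at this
    linarith

/-- connectivity function inside `G` -/
def lam (r : Finset E → ℤ) (G X : Finset E) : ℤ := r X + r (G \ X) - r G

lemma lam_ge_one {G : Finset E} (hc : Conn r G) {X : Finset E} (hX : X ⊆ G) (hne : X.Nonempty)
    (hXG : X ≠ G) : 1 ≤ lam r G X := by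
  have := hc X hX hne hXG
  unfold lam; linarith

lemma lam_uncross (h : Rk r) (G X Y : Finset E) :
    lam r G (X ∪ Y) + lam r G (X ∩ Y) ≤ lam r G X + lam r G Y := by
  have h1 := h.submod X Y
  have h2 := h.submod (G \ X) (G \ Y)
  have e1 : G \ X ∪ G \ Y = G \ (X ∩ Y) := by
    ext z; simp only [mem_union, mem_sdiff, mem_inter]; tauto
  have e2 : G \ X ∩ (G \ Y) = G \ (X ∪ Y) := by
    ext z; simp only [mem_union, mem_sdiff, mem_inter]; tauto
  rw [e1, e2] at h2
  unfold lam; linarith

lemma lam_uncross' (h : Rk r) {G X Y : Finset E} (hX : X ⊆ G) (hY : Y ⊆ G) :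
    lam r G (Y \ X) + lam r G (X \ Y) ≤ lam r G X + lam r G Y := by
  have h1 := h.submod Y (G \ X)
  have h2 := h.submod X (G \ Y)
  have e1 : Y ∪ (G \ X) = G \ (X \ Y) := by
    ext z; simp only [mem_union, mem_sdiff]
    constructor
    · rintro (h3 | h3)
      · exact ⟨hY h3, fun h4 => h4.2 h3⟩
      · exact ⟨h3.1, fun h4 => h3.2 h4.1⟩
    · rintro ⟨h3, h4⟩
      by_cases h5 : z ∈ Y
      · exact Or.inl h5
      · exact Or.inr ⟨h3, fun h6 => h4 ⟨h6, h5⟩⟩
  have e2 : Y ∩ (G \ X) = Y \ X := by
    ext z; simp only [mem_inter, mem_sdiff]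
    constructor
    · rintro ⟨h3, h4⟩; exact ⟨h3, h4.2⟩
    · rintro ⟨h3, h4⟩; exact ⟨h3, hY h3, h4⟩
  have e3 : X ∪ (G \ Y) = G \ (Y \ X) := by
    ext z; simp only [mem_union, mem_sdiff]
    constructor
    · rintro (h3 | h3)
      · exact ⟨hX h3, fun h4 => h4.2 h3⟩
      · exact ⟨h3.1, fun h4 => h3.2 h4.1⟩
    · rintro ⟨h3, h4⟩
      by_cases h5 : z ∈ X
      · exact Or.inl h5
      · exact Or.inr ⟨h3, fun h6 => h4 ⟨h6, h5⟩⟩
  have e4 : X ∩ (G \ Y) = X \ Y := by
    ext z; simp only [mem_inter, mem_sdiff]
    constructor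
    · rintro ⟨h3, h4⟩; exact ⟨h3, h4.2⟩
    · rintro ⟨h3, h4⟩; exact ⟨h3, hX h3, h4⟩
  rw [e1, e2] at h1
  rw [e3, e4] at h2
  unfold lam; linarith

lemma insert_sdiff_of {S X : Finset E} {e0 : E} (he : e0 ∉ S) (hX : X ⊆ S) :
    insert e0 S \ X = insert e0 (S \ X) := by
  ext z; simp only [mem_insert, mem_sdiff]
  constructor
  · rintro ⟨h1 | h1, h2⟩
    · exact Or.inl h1
    · exact Or.inr ⟨h1, h2⟩
  · rintro (h1 | ⟨h1, h2⟩)
    · subst h1; exact ⟨Or.inl rfl, fun h3 => he (hX h3)⟩
    · exact ⟨Or.inr h1, h2⟩

lemma dl_eq_lam {S X : Finset E} {e0 : E} (he : e0 ∉ S) (hX : X ⊆ S) :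
    dl r X (insert e0 (S \ X)) = lam r (insert e0 S) X := by
  unfold dl lam
  have : X ∪ insert e0 (S \ X) = insert e0 S := by
    rw [union_insert, union_sdiff_of_subset hX]
  rw [this, insert_sdiff_of he hX]

theorem structure_lemma (h : Rk r) {S : Finset E} {e0 : E} (he : e0 ∉ S)
    (hc : Conn r (insert e0 S)) (hS : 2 ≤ S.card) :
    (∃ X C, X ∪ C = S ∧ Disjoint X C ∧ X.Nonempty ∧ C.Nonempty ∧
      dl r X (insert e0 C) = 1 ∧ dl r C (insert e0 X) = 1) ∨
    (∃ X C, X ∪ C = S ∧ Disjoint X C ∧ X.Nonempty ∧ C.Nonempty ∧ X.card ≤ C.card ∧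
      dl r X (insert e0 C) = 1 ∧ Conn r (insert e0 C) ∧ Conn (ctr r X) (insert e0 C)) := by
  by_cases hSP : ∃ X, X ⊆ S ∧ X.Nonempty ∧ X ≠ S ∧ lam r (insert e0 S) X = 1 ∧
      lam r (insert e0 S) (S \ X) = 1
  · left
    obtain ⟨X, hXS, hXne, hXS', h1, h2⟩ := hSP
    refine ⟨X, S \ X, union_sdiff_of_subset hXS, disjoint_sdiff, hXne, ?_, ?_, ?_⟩
    · rw [nonempty_iff_ne_empty]
      intro h'
      rw [sdiff_eq_empty_iff_subset] at h'
      exact hXS' (subset_antisymm hXS h')
    · rw [dl_eq_lam he hXS, h1]
    · have := dl_eq_lam (r := r) he (sdiff_subset : S \ X ⊆ S)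
      rw [Finset.sdiff_sdiff_eq_self hXS] at this
      rw [this, h2]
  · right
    have hSP' : ∀ X, X ⊆ S → X.Nonempty → X ≠ S → lam r (insert e0 S) X = 1 →
        lam r (insert e0 S) (S \ X) ≠ 1 := by
      intro X h1 h2 h3 h4 h5
      exact hSP ⟨X, h1, h2, h3, h4, h5⟩
    have hSG : S ⊆ insert e0 S := subset_insert e0 S
    have hneG : ∀ X, X ⊆ S → X ≠ insert e0 S := by
      intro X hX h'
      exact he (hX (h' ▸ mem_insert_self e0 S))
    have lam1 : ∀ X, X ⊆ S → X.Nonempty → 1 ≤ lam r (insert e0 S) X := by
      intro X hX hne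
      exact lam_ge_one hc (hX.trans hSG) hne (hneG X hX)
    have lams : ∀ e ∈ S, lam r (insert e0 S) {e} = 1 := by
      intro e heS
      apply le_antisymm
      · have h1 := h.single e
        have h2 := h.mono (insert e0 S \ {e}) (insert e0 S) sdiff_subset
        unfold lam; linarith
      · exact lam1 {e} (singleton_subset_iff.mpr heS) (singleton_nonempty e)
    have unc : ∀ X Y, X ⊆ S → Y ⊆ S → X ≠ S → Y ≠ S → (X ∩ Y).Nonempty →
        lam r (insert e0 S) X = 1 → lam r (insert e0 S) Y = 1 →
        X ∪ Y ≠ S ∧ lam r (insert e0 S) (X ∪ Y) = 1 := by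
      intro X Y hX hY hXS hYS hne h1 h2
      have hne' : (X ∪ Y).Nonempty := hne.mono (inter_subset_left.trans subset_union_left)
      have k1 := lam1 (X ∪ Y) (union_subset hX hY) hne'
      have k2 := lam1 (X ∩ Y) (inter_subset_left.trans hX) hne
      have k3 := lam_uncross h (insert e0 S) X Y
      refine ⟨?_, by linarith⟩
      intro hXY
      have hYX : (Y \ X).Nonempty := by
        rw [nonempty_iff_ne_empty]
        intro h'
        rw [sdiff_eq_empty_iff_subset] at h'
        rw [union_eq_left.mpr h'] at hXY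
        exact hXS hXY
      have hXY' : (X \ Y).Nonempty := by
        rw [nonempty_iff_ne_empty]
        intro h'
        rw [sdiff_eq_empty_iff_subset] at h'
        rw [union_eq_right.mpr h'] at hXY
        exact hYS hXY
      have k4 := lam_uncross' h (hX.trans hSG) (hY.trans hSG)
      have k5 := lam1 (Y \ X) (sdiff_subset.trans hY) hYX
      have k6 := lam1 (X \ Y) (sdiff_subset.trans hX) hXY'
      have hXne : X.Nonempty := hne.mono inter_subset_left
      have e1 : S \ X = Y \ X := by
        rw [← hXY]; ext z; simp only [mem_sdiff, mem_union]; tauto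
      apply hSP' X hX hXne hXS h1
      rw [e1]; linarith
    -- maximal separations
    let T : Finset (Finset E) := S.powerset.filter
      (fun X => X ≠ S ∧ lam r (insert e0 S) X = 1)
    have hT : ∀ X, X ∈ T ↔ X ⊆ S ∧ X ≠ S ∧ lam r (insert e0 S) X = 1 := by
      intro X; simp only [T, mem_filter, mem_powerset]
    have hsing : ∀ e ∈ S, ({e} : Finset E) ∈ T := by
      intro e heS
      rw [hT]
      refine ⟨singleton_subset_iff.mpr heS, ?_, lams e heS⟩
      rintro rfl
      rw [card_singleton] at hS
      omega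
    have hmax : ∀ e ∈ S, ∃ X, e ∈ X ∧ X ∈ T ∧ ∀ Y, Y ∈ T → X ⊆ Y → Y = X := by
      intro e heS
      obtain ⟨X, hX1, hX2⟩ := T.exists_le_maximal (hsing e heS)
      refine ⟨X, hX1 (mem_singleton_self e), hX2.1, ?_⟩
      intro Y hY hXY
      exact subset_antisymm (hX2.2 hY hXY) hXY
    have hSne : S.Nonempty := card_pos.mp (by omega)
    obtain ⟨e1, he1⟩ := hSne
    obtain ⟨X1, h11, h12, h13⟩ := hmax e1 he1
    have h12' := (hT X1).mp h12
    obtain ⟨e2, he2S, he2X⟩ : ∃ e2, e2 ∈ S ∧ e2 ∉ X1 := by
      by_contra hcon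
      push Not at hcon
      exact h12'.2.1 (subset_antisymm h12'.1 hcon)
    obtain ⟨X2, h21, h22, h23⟩ := hmax e2 he2S
    have h22' := (hT X2).mp h22
    have hdisj : Disjoint X1 X2 := by
      rw [disjoint_iff_inter_eq_empty]
      by_contra hcon
      have hne := nonempty_iff_ne_empty.mpr hcon
      obtain ⟨k1, k2⟩ := unc X1 X2 h12'.1 h22'.1 h12'.2.1 h22'.2.1 hne h12'.2.2 h22'.2.2
      have k3 : X1 ∪ X2 ∈ T := (hT _).mpr ⟨union_subset h12'.1 h22'.1, k1, k2⟩
      have k4 := h13 _ k3 subset_union_left
      exact he2X (k4 ▸ mem_union_right X1 h21)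
    have hcard : X1.card + X2.card ≤ S.card := by
      rw [← card_union_of_disjoint hdisj]
      exact card_le_card (union_subset h12'.1 h22'.1)
    obtain ⟨X, hXne, hXT, hXmax, hXcard⟩ : ∃ X, X.Nonempty ∧ X ∈ T ∧
        (∀ Y, Y ∈ T → X ⊆ Y → Y = X) ∧ 2 * X.card ≤ S.card := by
      rcases le_total X1.card X2.card with h' | h'
      · exact ⟨X1, ⟨e1, h11⟩, h12, h13, by omega⟩
      · exact ⟨X2, ⟨e2, h21⟩, h22, h23, by omega⟩
    obtain ⟨hXS, hXS', hXlam⟩ := (hT X).mp hXT
    have hcardC : (S \ X).card = S.card - X.card := card_sdiff_of_subset hXS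
    have hCne : (S \ X).Nonempty := by
      rw [nonempty_iff_ne_empty]
      intro h'
      rw [sdiff_eq_empty_iff_subset] at h'
      exact hXS' (subset_antisymm hXS h')
    -- the final contradiction, common to both connectivity claims
    have fin : ∀ A B : Finset E, A ∪ B = insert e0 (S \ X) → Disjoint A B → A.Nonempty →
        e0 ∈ B → lam r (insert e0 S) (X ∪ A) ≤ 1 →
        (r (S \ X) + r (X ∪ {e0}) - r (insert e0 S) ≤ 1 ∨ A ≠ S \ X) → False := by
      intro A B hAB hd hA heB hl hC
      have heA : e0 ∉ A := disjoint_right.mp hd heB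
      have hAC : A ⊆ S \ X := by
        intro z hz
        have h1 : z ∈ insert e0 (S \ X) := hAB ▸ mem_union_left B hz
        rcases mem_insert.mp h1 with h2 | h2
        · subst h2; exact absurd hz heA
        · exact h2
      have hAS : A ⊆ S := hAC.trans sdiff_subset
      have hXA : X ∪ A ⊆ S := union_subset hXS hAS
      have k1 := lam1 (X ∪ A) hXA (hXne.mono subset_union_left)
      have k2 : lam r (insert e0 S) (X ∪ A) = 1 := le_antisymm hl k1
      obtain ⟨a, ha⟩ := hA
      have haX : a ∉ X := (mem_sdiff.mp (hAC ha)).2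
      by_cases hXAS : X ∪ A = S
      · have hAC' : A = S \ X := by
          apply subset_antisymm hAC
          intro z hz
          have hz1 := (mem_sdiff.mp hz)
          have : z ∈ X ∪ A := hXAS ▸ hz1.1
          rcases mem_union.mp this with h3 | h3
          · exact absurd h3 hz1.2
          · exact h3
        rcases hC with hC | hC
        · apply hSP' X hXS hXne hXS' hXlam
          have k3 := lam1 (S \ X) sdiff_subset hCne
          have e5 : insert e0 S \ (S \ X) = X ∪ {e0} := by
            rw [insert_sdiff_of he sdiff_subset, Finset.sdiff_sdiff_eq_self hXS]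
            ext z; simp only [mem_insert, mem_union, mem_singleton]; tauto
          have k4 : lam r (insert e0 S) (S \ X) ≤ 1 := by
            unfold lam; rw [e5]; linarith
          exact le_antisymm k4 k3
        · exact hC hAC'
      · have k3 : X ∪ A ∈ T := (hT _).mpr ⟨hXA, hXAS, k2⟩
        have k4 := hXmax _ k3 subset_union_left
        exact haX (k4 ▸ mem_union_right X ha)
    have hdXG : Disjoint X (insert e0 (S \ X)) := by
      rw [disjoint_insert_right]
      exact ⟨fun h' => he (hXS h'), disjoint_sdiff⟩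
    have hdl : dl r X (insert e0 (S \ X)) = 1 := by rw [dl_eq_lam he hXS, hXlam]
    have hXG : X ∪ insert e0 (S \ X) = insert e0 S := by
      rw [union_insert, union_sdiff_of_subset hXS]
    have hlam' : r X + r (insert e0 (S \ X)) = r (insert e0 S) + 1 := by
      unfold dl at hdl; rw [hXG] at hdl; linarith
    have gl : ∀ A B : Finset E, A ∪ B = insert e0 (S \ X) → Disjoint A B →
        e0 ∈ B → insert e0 S \ (X ∪ A) = B := by
      intro A B hAB hd heB
      ext z
      have hz : z ∈ A ∪ B ↔ z ∈ insert e0 (S \ X) := by rw [hAB]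
      simp only [mem_union, mem_insert, mem_sdiff] at hz
      simp only [mem_union, mem_insert, mem_sdiff]
      constructor
      · rintro ⟨h1 | h1, h2⟩
        · subst h1; exact heB
        · push Not at h2
          rcases hz.mpr (Or.inr ⟨h1, h2.1⟩) with h3 | h3
          · exact absurd h3 h2.2
          · exact h3
      · intro h1
        have h2 : z ∉ A := disjoint_right.mp hd h1
        rcases hz.mp (Or.inr h1) with h3 | h3
        · subst h3
          exact ⟨Or.inl rfl, fun h4 => h4.elim (fun h5 => he (hXS h5)) h2⟩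
        · exact ⟨Or.inr h3.1, fun h4 => h4.elim h3.2 h2⟩
    -- a symmetric way to prove connectivity of rank functions on `insert e0 (S \ X)`
    have sym : ∀ ρ : Finset E → ℤ, (∀ A B : Finset E, A ∪ B = insert e0 (S \ X) →
        Disjoint A B → A.Nonempty → e0 ∈ B → ρ (insert e0 (S \ X)) + 1 ≤ ρ A + ρ B) →
        Conn ρ (insert e0 (S \ X)) := by
      intro ρ H
      apply Conn.mk'
      intro A B hAB hd hA hB
      have : e0 ∈ A ∪ B := hAB ▸ mem_insert_self e0 _
      rcases mem_union.mp this with h' | h'
      · have := H B A (by rw [union_comm, hAB]) hd.symm hB h'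
        linarith
      · exact H A B hAB hd hA h'
    refine ⟨X, S \ X, union_sdiff_of_subset hXS, disjoint_sdiff, hXne, hCne, by omega, hdl,
      sym r ?_, sym (ctr r X) ?_⟩
    · intro A B hAB hd hA heB
      by_contra hcon
      push Not at hcon
      have hAX : r (X ∪ A) ≤ r X + r A := by
        have := h.submod X A
        have h0 := h.mono ∅ (X ∩ A) (empty_subset _)
        rw [h.empty] at h0
        linarith
      refine fin A B hAB hd hA heB ?_ ?_
      · unfold lam
        rw [gl A B hAB hd heB]
        linarith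
      · by_cases hAC : A = S \ X
        · left
          have hB : B = {e0} := by
            ext z
            have hz : z ∈ A ∪ B ↔ z ∈ insert e0 (S \ X) := by rw [hAB]
            rw [hAC] at hz
            simp only [mem_union, mem_insert] at hz
            simp only [mem_singleton]
            constructor
            · intro h1
              rcases hz.mp (Or.inr h1) with h2 | h2
              · exact h2
              · exact absurd h1 (disjoint_left.mp hd (hAC ▸ h2))
            · rintro rfl; exact heB
          have hXe : r (X ∪ {e0}) ≤ r X + r {e0} := by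
            have := h.submod X {e0}
            have h0 := h.mono ∅ (X ∩ {e0}) (empty_subset _)
            rw [h.empty] at h0
            linarith
          rw [hAC, hB] at hcon
          linarith
        · right; exact hAC
    · intro A B hAB hd hA heB
      by_contra hcon
      push Not at hcon
      have hBsub : B ⊆ insert e0 (S \ X) := hAB ▸ subset_union_right
      have hAsub : A ⊆ insert e0 (S \ X) := hAB ▸ subset_union_left
      have k1 := h.dl_mono_right hBsub hdXG
      have k2 := h.dl_mono_right hAsub hdXG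
      rw [hdl] at k1 k2
      unfold dl at k1 k2
      unfold ctr at hcon
      rw [show insert e0 (S \ X) ∪ X = insert e0 S by rw [union_comm, hXG],
        union_comm A X, union_comm B X] at hcon
      refine fin A B hAB hd hA heB ?_ ?_
      · unfold lam
        rw [gl A B hAB hd heB]
        linarith
      · by_cases hAC : A = S \ X
        · left
          have hB : B = {e0} := by
            ext z
            have hz : z ∈ A ∪ B ↔ z ∈ insert e0 (S \ X) := by rw [hAB]
            rw [hAC] at hz
            simp only [mem_union, mem_insert] at hz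
            simp only [mem_singleton]
            constructor
            · intro h1
              rcases hz.mp (Or.inr h1) with h2 | h2
              · exact h2
              · exact absurd h1 (disjoint_left.mp hd (hAC ▸ h2))
            · rintro rfl; exact heB
          rw [hAC, hB] at hcon
          rw [hAC] at k2
          linarith
        · right; exact hAC

end Pool.Agent.Lib.MP_c21bd4_co
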