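import Mathlib
import Pool.Agent.Lib.MP_c21bd4_co.Rank

set_option autoImplicit false

/-!
The two generating functions of a two-terminal network, and how they compose.
-/

namespace Pool.Agent.Lib.MP_c21bd4_co

open Finset

variable {E : Type} [DecidableEq E]

/-- weight of a set -/
noncomputable def wt (q : ℝ) (v : E → ℝ) (r : Finset E → ℤ) (A : Finset E) : ℝ :=
  q ^ (-r A) * ∏ e ∈ A, v e

noncomputable def b0 (q : ℝ) (v : E → ℝ) (r : Finset E → ℤ) (X Y : Finset E) : ℝ :=
  ∑ A ∈ X.powerset, if dl r A Y = 0 then wt q v r A else 0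

noncomputable def b1 (q : ℝ) (v : E → ℝ) (r : Finset E → ℤ) (X Y : Finset E) : ℝ :=
  ∑ A ∈ X.powerset, if dl r A Y = 0 then 0 else wt q v r A

/-- the (normalised) multivariate Tutte polynomial -/
noncomputable def Z (q : ℝ) (v : E → ℝ) (r : Finset E → ℤ) (G : Finset E) : ℝ :=
  ∑ A ∈ G.powerset, wt q v r A

lemma sum_powerset_union {X C : Finset E} (hd : Disjoint X C) (f : Finset E → ℝ) :
    ∑ A ∈ (X ∪ C).powerset, f A = ∑ A ∈ X.powerset, ∑ B ∈ C.powerset, f (A ∪ B) := by
  rw [← Finset.sum_product']
  symm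
  refine Finset.sum_nbij' (fun p => p.1 ∪ p.2) (fun A => (A ∩ X, A ∩ C)) ?_ ?_ ?_ ?_ ?_
  · rintro ⟨A, B⟩ h
    simp only [mem_product, mem_powerset] at h ⊢
    exact union_subset_union h.1 h.2
  · intro A h
    simp only [mem_product, mem_powerset] at h ⊢
    exact ⟨inter_subset_right, inter_subset_right⟩
  · rintro ⟨A, B⟩ h
    simp only [mem_product, mem_powerset] at h
    have h1 : (A ∪ B) ∩ X = A := by
      ext z; simp only [mem_inter, mem_union]
      constructor
      · rintro ⟨h3 | h3, h4⟩
        · exact h3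
        · exact absurd (h.2 h3) (disjoint_left.mp hd h4)
      · intro h3; exact ⟨Or.inl h3, h.1 h3⟩
    have h2 : (A ∪ B) ∩ C = B := by
      ext z; simp only [mem_inter, mem_union]
      constructor
      · rintro ⟨h3 | h3, h4⟩
        · exact absurd h4 (disjoint_left.mp hd (h.1 h3))
        · exact h3
      · intro h3; exact ⟨Or.inr h3, h.2 h3⟩
    simp only [h1, h2]
  · intro A h
    simp only [mem_powerset] at h
    ext z; simp only [mem_inter, mem_union]
    constructor
    · rintro (h3 | h3) <;> exact h3.1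
    · intro h3
      rcases mem_union.mp (h h3) with h4 | h4
      · exact Or.inl ⟨h3, h4⟩
      · exact Or.inr ⟨h3, h4⟩
  · rintro ⟨A, B⟩ _; rfl

lemma prod_union' {A B : Finset E} (hd : Disjoint A B) (v : E → ℝ) :
    ∏ e ∈ A ∪ B, v e = (∏ e ∈ A, v e) * ∏ e ∈ B, v e := prod_union hd

variable {r : Finset E → ℤ} {q : ℝ} {v : E → ℝ}

lemma Rk.dl01 (h : Rk r) {X Y A : Finset E} (hd : Disjoint X Y) (hl : dl r X Y = 1)
    (hA : A ⊆ X) : dl r A Y = 0 ∨ dl r A Y = 1 := by
  have n1 := h.dl_nonneg (disjoint_of_subset_left hA hd)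
  have m1 : dl r A Y ≤ 1 := hl ▸ h.dl_mono_left hA hd
  omega

/-- the sub-network has the same generating functions when its outside is replaced by a single
element -/
lemma sub_b (h : Rk r) {X Y : Finset E} {g : E} (hg : g ∉ X) :
    b0 q v (sub r X Y g) X {g} = b0 q v r X Y ∧ b1 q v (sub r X Y g) X {g} = b1 q v r X Y := by
  have key : ∀ A, A ⊆ X → dl (sub r X Y g) A {g} = dl r A Y ∧
      wt q v (sub r X Y g) A = wt q v r A := by
    intro A hA
    have hgA : g ∉ A := fun h' => hg (hA h')
    have e1 : A ∩ X = A := inter_eq_left.mpr hA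
    have s1 : sub r X Y g A = r A := by unfold sub; rw [if_neg hgA, e1]
    have s2 : sub r X Y g {g} = 1 := by
      unfold sub
      rw [if_pos (mem_singleton_self g), singleton_inter_of_notMem hg, empty_union]; ring
    have s3 : sub r X Y g (A ∪ {g}) = r (A ∪ Y) - r Y + 1 := by
      unfold sub
      rw [if_pos (mem_union_right A (mem_singleton_self g)), union_inter_distrib_right, e1,
        singleton_inter_of_notMem hg, union_empty]
    constructor
    · unfold dl; rw [s1, s2, s3]; ring
    · unfold wt; rw [s1]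
  constructor
  · unfold b0
    refine sum_congr rfl fun A hA => ?_
    obtain ⟨k1, k2⟩ := key A (mem_powerset.mp hA)
    rw [k1, k2]
  · unfold b1
    refine sum_congr rfl fun A hA => ?_
    obtain ⟨k1, k2⟩ := key A (mem_powerset.mp hA)
    rw [k1, k2]

lemma wt_union (hq : q ≠ 0) {A B : Finset E} (hd : Disjoint A B) (ρ : Finset E → ℤ)
    (c : ℤ) (hr : r (A ∪ B) = r A + ρ B - c) :
    wt q v r (A ∪ B) = q ^ c * (wt q v r A * wt q v ρ B) := by
  unfold wt
  rw [hr, prod_union' hd, show -(r A + ρ B - c) = c + (-r A) + (-ρ B) by ring,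
    zpow_add₀ hq, zpow_add₀ hq]
  ring

/-- composition, 3-connected-like root -/
lemma comp_R (h : Rk r) (hq : q ≠ 0) {X C : Finset E} {e0 : E} (hX0 : e0 ∉ X)
    (hd : Disjoint X C) (hl : dl r X (insert e0 C) = 1)
    (h1 : r {e0} = 1) (h2 : ctr r X {e0} = 1) :
    b0 q v r (X ∪ C) {e0} = b0 q v r X (insert e0 C) * b0 q v r C {e0} +
      b1 q v r X (insert e0 C) * b0 q v (ctr r X) C {e0} ∧
    b1 q v r (X ∪ C) {e0} = b0 q v r X (insert e0 C) * b1 q v r C {e0} +
      b1 q v r X (insert e0 C) * b1 q v (ctr r X) C {e0} := by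
  have hdX : Disjoint X (insert e0 C) := by
    rw [disjoint_insert_right]; exact ⟨hX0, hd⟩
  have key : ∀ A B, A ⊆ X → B ⊆ C →
      (dl r A (insert e0 C) = 0 ∧ dl r (A ∪ B) {e0} = dl r B {e0} ∧
        wt q v r (A ∪ B) = wt q v r A * wt q v r B) ∨
      (dl r A (insert e0 C) ≠ 0 ∧ dl r (A ∪ B) {e0} = dl (ctr r X) B {e0} ∧
        wt q v r (A ∪ B) = wt q v r A * wt q v (ctr r X) B) := by
    intro A B hA hB
    have hBY : B ⊆ insert e0 C := hB.trans (subset_insert e0 C)
    have hBY' : B ∪ {e0} ⊆ insert e0 C := by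
      apply union_subset hBY
      rw [singleton_subset_iff]; exact mem_insert_self e0 C
    have hdAB : Disjoint A B := disjoint_of_subset_left hA (disjoint_of_subset_right hB hd)
    have p1 := h.dl_prod hdX hl hA hBY
    have p2 := h.dl_prod hdX hl hA hBY'
    rcases h.dl01 hdX hl hA with k | k
    · left
      rw [k, zero_mul] at p1 p2
      refine ⟨k, ?_, ?_⟩
      · unfold dl at p1 p2 ⊢
        rw [← union_assoc] at p2
        linarith
      · have := wt_union (r := r) (v := v) hq hdAB r 0 (by unfold dl at p1; linarith)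
        simpa using this
    · right
      rw [k, one_mul] at p1 p2
      refine ⟨by omega, ?_, ?_⟩
      · unfold dl at p1 p2
        rw [← union_assoc] at p2
        unfold dl
        rw [h1, h2]
        unfold ctr
        rw [union_comm B X, union_comm (B ∪ {e0}) X]
        linarith
      · have := wt_union (r := r) (v := v) hq hdAB (ctr r X) 0 (by
          unfold ctr; unfold dl at p1
          rw [union_comm B X]; linarith)
        simpa using this
  constructor
  · unfold b0 b1
    rw [sum_powerset_union hd, sum_mul_sum, sum_mul_sum, ← sum_add_distrib]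
    refine sum_congr rfl fun A hA => ?_
    rw [← sum_add_distrib]
    refine sum_congr rfl fun B hB => ?_
    rcases key A B (mem_powerset.mp hA) (mem_powerset.mp hB) with ⟨k1, k2, k3⟩ | ⟨k1, k2, k3⟩
    · rw [if_pos k1, if_pos k1, k2, k3]
      split_ifs <;> ring
    · rw [if_neg k1, if_neg k1, k2, k3]
      split_ifs <;> ring
  · unfold b0 b1
    rw [sum_powerset_union hd, sum_mul_sum, sum_mul_sum, ← sum_add_distrib]
    refine sum_congr rfl fun A hA => ?_
    rw [← sum_add_distrib]
    refine sum_congr rfl fun B hB => ?_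
    rcases key A B (mem_powerset.mp hA) (mem_powerset.mp hB) with ⟨k1, k2, k3⟩ | ⟨k1, k2, k3⟩
    · rw [if_pos k1, if_pos k1, k2, k3]
      split_ifs <;> ring
    · rw [if_neg k1, if_neg k1, k2, k3]
      split_ifs <;> ring

/-- rank facts about the root element -/
lemma Conn.root (h : Rk r) {S : Finset E} {e0 : E} (he : e0 ∉ S) (hne : S.Nonempty)
    (hc : Conn r (insert e0 S)) : r {e0} = 1 ∧ r S = r (insert e0 S) := by
  have h1 := hc.apply (A := S) (B := {e0})
    (by ext z; simp only [mem_union, mem_insert, mem_singleton]; tauto)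
    (by rw [disjoint_singleton_right]; exact he) hne (singleton_nonempty e0)
  have h2 := h.single e0
  have h3 := h.mono S (insert e0 S) (subset_insert e0 S)
  constructor <;> omega

/-- composition, series or parallel root -/
lemma comp_SP (h : Rk r) (hq : q ≠ 0) {X C : Finset E} {e0 : E} (hX0 : e0 ∉ X) (hC0 : e0 ∉ C)
    (hd : Disjoint X C) (hXne : X.Nonempty)
    (hl : dl r X (insert e0 C) = 1) (hl' : dl r C (insert e0 X) = 1)
    (hc : Conn r (insert e0 (X ∪ C))) :
    (r X + r C = r (insert e0 (X ∪ C)) + 1 ∧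
      b0 q v r (X ∪ C) {e0} = b0 q v r X (insert e0 C) * b0 q v r C (insert e0 X) ∧
      b1 q v r (X ∪ C) {e0} = b0 q v r X (insert e0 C) * b1 q v r C (insert e0 X) +
        b1 q v r X (insert e0 C) * b0 q v r C (insert e0 X) +
        q * (b1 q v r X (insert e0 C) * b1 q v r C (insert e0 X))) ∨
    (r X + r C = r (insert e0 (X ∪ C)) ∧
      b0 q v r (X ∪ C) {e0} = b0 q v r X (insert e0 C) * b0 q v r C (insert e0 X) +
        b0 q v r X (insert e0 C) * b1 q v r C (insert e0 X) +
        b1 q v r X (insert e0 C) * b0 q v r C (insert e0 X) ∧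
      b1 q v r (X ∪ C) {e0} = b1 q v r X (insert e0 C) * b1 q v r C (insert e0 X)) := by
  have hdX : Disjoint X (insert e0 C) := by
    rw [disjoint_insert_right]; exact ⟨hX0, hd⟩
  have hdC : Disjoint C (insert e0 X) := by
    rw [disjoint_insert_right]; exact ⟨hC0, hd.symm⟩
  have heS : e0 ∉ X ∪ C := by
    simp only [mem_union, not_or]; exact ⟨hX0, hC0⟩
  obtain ⟨re, rS⟩ := Conn.root h heS (hXne.mono subset_union_left) hc
  have e1 : X ∪ insert e0 C = insert e0 (X ∪ C) := union_insert e0 X C
  have e2 : C ∪ insert e0 X = insert e0 (X ∪ C) := by rw [union_insert, union_comm C X]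
  have hl1 : r X + r (insert e0 C) = r (insert e0 (X ∪ C)) + 1 := by
    unfold dl at hl; rw [e1] at hl; linarith
  have hl2 : r C + r (insert e0 X) = r (insert e0 (X ∪ C)) + 1 := by
    unfold dl at hl'; rw [e2] at hl'; linarith
  have d01 : dl r X C = 0 ∨ dl r X C = 1 := by
    have n1 := h.dl_nonneg hd
    have m1 : dl r X C ≤ 1 := hl ▸ h.dl_mono_right (subset_insert e0 C) hdX
    omega
  have hdval : dl r X C = r X + r C - r (insert e0 (X ∪ C)) := by
    unfold dl; rw [rS]
  -- the basic data
  have key : ∀ A B, A ⊆ X → B ⊆ C →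
      r (A ∪ B) = r A + r B - dl r X C * (dl r A (insert e0 C) * dl r B (insert e0 X)) ∧
      dl r (A ∪ B) {e0} = dl r X C * dl r B (insert e0 X) + dl r X C * dl r A (insert e0 C) +
        dl r A (insert e0 C) * dl r B (insert e0 X) -
        2 * (dl r X C * (dl r A (insert e0 C) * dl r B (insert e0 X))) := by
    intro A B hA hB
    have hBY : B ⊆ insert e0 C := hB.trans (subset_insert e0 C)
    have hBY' : B ∪ {e0} ⊆ insert e0 C := by
      apply union_subset hBY
      rw [singleton_subset_iff]; exact mem_insert_self e0 C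
    have p1 := h.dl_prod hdX hl hA hBY
    have p2 := h.dl_prod hdX hl hA hBY'
    have p3 := h.dl_prod hdC hl' hB (subset_insert e0 X)
    have p4 := h.dl_prod hdC hl' hB (show ({e0} : Finset E) ⊆ insert e0 X by
      rw [singleton_subset_iff]; exact mem_insert_self e0 X)
    have p5 := h.dl_prod hdC hl' hB (Subset.refl (insert e0 X))
    have p6 : dl r C X = dl r X C := dl_comm C X
    have p7 : dl r C {e0} = dl r X C := by
      rw [hdval]; unfold dl
      rw [show C ∪ {e0} = insert e0 C by
        ext z; simp only [mem_union, mem_insert, mem_singleton]; tauto, re]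
      linarith
    rw [p6] at p3
    rw [p7] at p4
    have p8 : dl r X B = dl r B X := dl_comm X B
    rw [p8, p3] at p1
    -- dl X (B ∪ e0)
    have p9 : dl r X (B ∪ {e0}) = dl r X C + dl r B (insert e0 X) -
        dl r X C * dl r B (insert e0 X) := by
      have q1 : dl r B {e0} = r B + 1 - r (B ∪ {e0}) := by unfold dl; rw [re]
      have q2 : dl r B (insert e0 X) = r B + r (insert e0 X) - r (X ∪ (B ∪ {e0})) := by
        unfold dl
        congr 2
        ext z; simp only [mem_union, mem_insert, mem_singleton]; tauto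
      have q3 : dl r X (B ∪ {e0}) = r X + r (B ∪ {e0}) - r (X ∪ (B ∪ {e0})) := rfl
      rw [q3]
      have : r (B ∪ {e0}) = r B + 1 - dl r B (insert e0 X) * dl r X C := by rw [← p4, q1]; ring
      rw [this, hdval]
      have : r (X ∪ (B ∪ {e0})) = r B + r (insert e0 X) - dl r B (insert e0 X) := by
        rw [q2]; ring
      rw [this]
      linarith
    rw [p9] at p2
    have q1 : dl r B {e0} = r B + 1 - r (B ∪ {e0}) := by unfold dl; rw [re]
    constructor
    · have : dl r A B = r A + r B - r (A ∪ B) := rfl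
      rw [this] at p1
      linarith
    · have t1 : dl r (A ∪ B) {e0} = r (A ∪ B) + 1 - r (A ∪ (B ∪ {e0})) := by
        unfold dl; rw [re, union_assoc]
      have t2 : dl r A (B ∪ {e0}) = r A + r (B ∪ {e0}) - r (A ∪ (B ∪ {e0})) := rfl
      have t3 : dl r A B = r A + r B - r (A ∪ B) := rfl
      rw [t1]
      rw [t2] at p2
      rw [t3] at p1
      have t4 : r (B ∪ {e0}) = r B + 1 - dl r B (insert e0 X) * dl r X C := by
        rw [← p4, q1]; ring
      rw [t4] at p2
      linear_combination p2 - p1
  have hdAB : ∀ A B, A ⊆ X → B ⊆ C → Disjoint A B := fun A B hA hB =>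
    disjoint_of_subset_left hA (disjoint_of_subset_right hB hd)
  rcases d01 with hd0 | hd1
  · right
    refine ⟨by omega, ?_, ?_⟩
    · unfold b0 b1
      rw [sum_powerset_union hd, sum_mul_sum, sum_mul_sum, sum_mul_sum, ← sum_add_distrib,
        ← sum_add_distrib]
      refine sum_congr rfl fun A hA => ?_
      rw [← sum_add_distrib, ← sum_add_distrib]
      refine sum_congr rfl fun B hB => ?_
      rw [mem_powerset] at hA hB
      obtain ⟨k1, k2⟩ := key A B hA hB
      rw [hd0] at k1 k2
      have hw := wt_union (r := r) (v := v) hq (hdAB A B hA hB) r 0 (by linarith)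
      rw [zpow_zero, one_mul] at hw
      rw [hw, k2]
      rcases h.dl01 hdX hl hA with s1 | s1 <;> rcases h.dl01 hdC hl' hB with s2 | s2 <;>
        simp [s1, s2]
    · unfold b1
      rw [sum_powerset_union hd, sum_mul_sum]
      refine sum_congr rfl fun A hA => ?_
      refine sum_congr rfl fun B hB => ?_
      rw [mem_powerset] at hA hB
      obtain ⟨k1, k2⟩ := key A B hA hB
      rw [hd0] at k1 k2
      have hw := wt_union (r := r) (v := v) hq (hdAB A B hA hB) r 0 (by linarith)
      rw [zpow_zero, one_mul] at hw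
      rw [hw, k2]
      rcases h.dl01 hdX hl hA with s1 | s1 <;> rcases h.dl01 hdC hl' hB with s2 | s2 <;>
        simp [s1, s2]
  · left
    refine ⟨by omega, ?_, ?_⟩
    · unfold b0
      rw [sum_powerset_union hd, sum_mul_sum]
      refine sum_congr rfl fun A hA => ?_
      refine sum_congr rfl fun B hB => ?_
      rw [mem_powerset] at hA hB
      obtain ⟨k1, k2⟩ := key A B hA hB
      rw [hd1] at k1 k2
      rcases h.dl01 hdX hl hA with s1 | s1 <;> rcases h.dl01 hdC hl' hB with s2 | s2
      · have hw := wt_union (r := r) (v := v) hq (hdAB A B hA hB) r 0 (by rw [k1, s1, s2]; ring)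
        rw [zpow_zero, one_mul] at hw
        rw [hw, k2, s1, s2]; simp
      · rw [k2, s1, s2]; simp
      · rw [k2, s1, s2]; simp
      · rw [k2, s1, s2]; simp
    · unfold b0 b1
      rw [sum_powerset_union hd, sum_mul_sum, sum_mul_sum, sum_mul_sum, ← sum_add_distrib,
        mul_sum, ← sum_add_distrib]
      refine sum_congr rfl fun A hA => ?_
      rw [← sum_add_distrib, mul_sum, ← sum_add_distrib]
      refine sum_congr rfl fun B hB => ?_
      rw [mem_powerset] at hA hB
      obtain ⟨k1, k2⟩ := key A B hA hB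
      rw [hd1] at k1 k2
      rcases h.dl01 hdX hl hA with s1 | s1 <;> rcases h.dl01 hdC hl' hB with s2 | s2
      · rw [k2, s1, s2]; simp
      · have hw := wt_union (r := r) (v := v) hq (hdAB A B hA hB) r 0 (by rw [k1, s1, s2]; ring)
        rw [zpow_zero, one_mul] at hw
        rw [hw, k2, s1, s2]; simp
      · have hw := wt_union (r := r) (v := v) hq (hdAB A B hA hB) r 0 (by rw [k1, s1, s2]; ring)
        rw [zpow_zero, one_mul] at hw
        rw [hw, k2, s1, s2]; simp
      · have hw := wt_union (r := r) (v := v) hq (hdAB A B hA hB) r 1 (by rw [k1, s1, s2]; ring)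
        rw [zpow_one] at hw
        rw [hw, k2, s1, s2]; simp

/-- one-element network -/
lemma base_b (h : Rk r) {e e0 : E} (hne : e ≠ e0) (hc : Conn r (insert e0 {e})) :
    b0 q v r {e} {e0} = 1 ∧ b1 q v r {e} {e0} = q⁻¹ * v e ∧ r (insert e0 {e}) = 1 := by
  have he : e0 ∉ ({e} : Finset E) := by
    rw [mem_singleton]; exact fun h' => hne h'.symm
  obtain ⟨re, rS⟩ := Conn.root h he (singleton_nonempty e) hc
  have hc1 := hc.apply (A := {e}) (B := {e0})
    (by ext z; simp only [mem_union, mem_insert, mem_singleton]; tauto)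
    (by rw [disjoint_singleton_right]; exact he) (singleton_nonempty e) (singleton_nonempty e0)
  have h2 := h.single e
  have h3 := h.mono {e} (insert e0 {e}) (subset_insert e0 {e})
  have hre : r {e} = 1 := by
    have := h.mono {e0} (insert e0 {e}) (by
      rw [singleton_subset_iff]; exact mem_insert_self _ _)
    omega
  have d0 : dl r ∅ {e0} = 0 := by unfold dl; rw [empty_union, h.empty]; ring
  have d1 : dl r {e} {e0} = 1 := by
    unfold dl
    rw [show ({e} : Finset E) ∪ {e0} = insert e0 {e} by
      ext z; simp only [mem_union, mem_insert, mem_singleton]; tauto, ← rS, hre, re]; ring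
  have hps : ({e} : Finset E).powerset = {∅, {e}} := rfl
  have hne' : (∅ : Finset E) ≠ {e} := by
    intro h'; exact absurd (h' ▸ mem_singleton_self e) (notMem_empty e)
  refine ⟨?_, ?_, by rw [← rS, hre]⟩
  · unfold b0
    rw [hps, sum_pair hne', d0, d1]
    simp [wt, h.empty]
  · unfold b1
    rw [hps, sum_pair hne', d0, d1]
    simp [wt, hre]

/-- `Z` in terms of the network generating functions -/
lemma Z_root (hq : q ≠ 0) {S : Finset E} {e0 : E} (he : e0 ∉ S)
    (H01 : ∀ A ⊆ S, dl r A {e0} = 0 ∨ dl r A {e0} = 1) (h1 : r {e0} = 1) :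
    Z q v r (insert e0 S) = (b0 q v r S {e0} + b1 q v r S {e0}) +
      v e0 * (b0 q v r S {e0} / q + b1 q v r S {e0}) := by
  unfold Z
  have hd : Disjoint S {e0} := by rw [disjoint_singleton_right]; exact he
  rw [show insert e0 S = S ∪ {e0} by
    ext z; simp only [mem_union, mem_insert, mem_singleton]; tauto, sum_powerset_union hd]
  have hps : ({e0} : Finset E).powerset = {∅, {e0}} := rfl
  have hne' : (∅ : Finset E) ≠ {e0} := by
    intro h'; exact absurd (h' ▸ mem_singleton_self e0) (notMem_empty e0)
  rw [hps]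
  simp_rw [sum_pair hne', union_empty]
  unfold b0 b1
  rw [← sum_add_distrib, sum_div, ← sum_add_distrib, mul_sum, ← sum_add_distrib]
  refine sum_congr rfl fun A hA => ?_
  rw [mem_powerset] at hA
  have hdA : Disjoint A {e0} := disjoint_of_subset_left hA hd
  rcases H01 A hA with k | k
  · rw [if_pos k, if_pos k]
    unfold wt
    unfold dl at k
    rw [show r (A ∪ {e0}) = r A + 1 by linarith, prod_union' hdA, prod_singleton,
      show -(r A + 1) = -r A + (-1) by ring, zpow_add₀ hq, zpow_neg_one]
    field_simp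
    ring
  · have k' : dl r A {e0} ≠ 0 := by omega
    rw [if_neg k', if_neg k']
    unfold wt
    unfold dl at k
    rw [show r (A ∪ {e0}) = r A by linarith, prod_union' hdA, prod_singleton]
    ring

/-- `Z` of the restriction and of the contraction in terms of the complementary network -/
lemma Z_restrict_contract (h : Rk r) (hq : q ≠ 0) {X Y : Finset E} (hd : Disjoint Y X)
    (hl : dl r Y X = 1) :
    Z q v r Y = b0 q v r Y X + b1 q v r Y X ∧
    Z q v (ctr r X) Y = b0 q v r Y X + q * b1 q v r Y X := by
  constructor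
  · unfold Z b0 b1
    rw [← sum_add_distrib]
    refine sum_congr rfl fun A _ => ?_
    split_ifs <;> ring
  · unfold Z b0 b1
    rw [mul_sum, ← sum_add_distrib]
    refine sum_congr rfl fun A hA => ?_
    rw [mem_powerset] at hA
    rcases h.dl01 hd hl hA with k | k
    · rw [if_pos k, if_pos k]
      unfold wt ctr
      unfold dl at k
      rw [show r (A ∪ X) - r X = r A by linarith]; ring
    · have k' : dl r A X ≠ 0 := by omega
      rw [if_neg k', if_neg k']
      unfold wt ctr
      unfold dl at k
      rw [show -(r (A ∪ X) - r X) = 1 + -r A by linarith, zpow_add₀ hq, zpow_one]; ring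

end Pool.Agent.Lib.MP_c21bd4_co
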