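import Mathlib
import Pool.Agent.Lib.MP_c21bd4_co.Net
import Pool.Agent.Lib.MP_c21bd4_co.Ineq

set_option autoImplicit false

/-!
Invariance: all effective weights stay in `J q x`, and the signs are controlled.
-/

namespace Pool.Agent.Lib.MP_c21bd4_co

open Finset

/-- sign -/
noncomputable def sg (n : ℤ) : ℝ := (-1 : ℝ) ^ n

lemma sg_add (m n : ℤ) : sg (m + n) = sg m * sg n := by
  unfold sg; rw [zpow_add₀]; norm_num

lemma sg_sq (n : ℤ) : sg n * sg n = 1 := by
  unfold sg
  rw [← mul_zpow]; norm_num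

lemma sg_one : sg 1 = -1 := by unfold sg; norm_num
lemma sg_two : sg 2 = 1 := by unfold sg; norm_num

lemma sg_add_one (n : ℤ) : sg (n + 1) = -sg n := by rw [sg_add, sg_one]; ring
lemma sg_add_two (n : ℤ) : sg (n + 2) = sg n := by rw [sg_add, sg_two]; ring
lemma sg_sub_one (n : ℤ) : sg (n - 1) = -sg n := by
  have := sg_add_one (n - 1)
  rw [sub_add_cancel] at this
  linarith

variable {E : Type} [DecidableEq E]

/-- admissible upper endpoint -/
structure Adm (q x : ℝ) : Prop where
  hq : 0 < q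
  hx : x < 0
  h1 : -1 ≤ x
  h2 : -q ≤ x
  h3 : 0 ≤ x ^ 3 - 2 * q * x - q ^ 2

/-- network statement for `Y = {e0}` -/
def T1stmt (q x : ℝ) (E : Type) [DecidableEq E] (n : ℕ) : Prop :=
  ∀ (r : Finset E → ℤ) (v : E → ℝ) (S : Finset E) (e0 : E), S.card ≤ n → Rk r → e0 ∉ S →
    S.Nonempty → Conn r (insert e0 S) → (∀ e ∈ S, v e ∈ J q x) →
    Ok q x (sg (r S + 1)) (b0 q v r S {e0}) (b1 q v r S {e0})

/-- reduction of a general network to one with a single outside element -/
lemma T1_general {q x : ℝ} {n : ℕ} (H : T1stmt q x E n) {r : Finset E → ℤ} {v : E → ℝ}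
    {X Y : Finset E} (hX : X.card ≤ n) (h : Rk r) (hd : Disjoint X Y) (hXne : X.Nonempty)
    (hYne : Y.Nonempty) (hl : dl r X Y = 1) (hc : Conn r (X ∪ Y)) (hv : ∀ e ∈ X, v e ∈ J q x) :
    Ok q x (sg (r X + 1)) (b0 q v r X Y) (b1 q v r X Y) := by
  obtain ⟨g, hg⟩ := hYne
  have hgX : g ∉ X := disjoint_right.mp hd hg
  have h1 := h.sub_rk hd hl hgX
  have h2 := Conn.sub_conn h hd hl hc ⟨g, hg⟩ hgX
  have h3 := H (sub r X Y g) v X g hX h1 hgX hXne h2 hv
  obtain ⟨e1, e2⟩ := sub_b (q := q) (v := v) h (Y := Y) hgX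
  rw [e1, e2] at h3
  have e3 : sub r X Y g X = r X := by
    unfold sub; rw [if_neg hgX, inter_self]
  rwa [e3] at h3

/-- the contraction is loopless at the root -/
lemma root_facts {r : Finset E → ℤ} (h : Rk r) {X C : Finset E} {e0 : E} (hC0 : e0 ∉ C)
    (hXC : Disjoint X C) (hX0 : e0 ∉ X) (hCne : C.Nonempty)
    (hl : dl r X (insert e0 C) = 1) (hcS : Conn r (insert e0 (X ∪ C)))
    (hc1 : Conn r (insert e0 C)) (hc2 : Conn (ctr r X) (insert e0 C)) :
    r {e0} = 1 ∧ ctr r X {e0} = 1 ∧ r C + r X = r (X ∪ C) + 1 ∧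
      ctr r X C + r X = r (X ∪ C) := by
  obtain ⟨a1, a2⟩ := Conn.root h hC0 hCne hc1
  obtain ⟨a3, a4⟩ := Conn.root (h.ctr_rk X) hC0 hCne hc2
  have heS : e0 ∉ X ∪ C := by simp only [mem_union, not_or]; exact ⟨hX0, hC0⟩
  obtain ⟨a5, a6⟩ := Conn.root h heS (hCne.mono subset_union_right) hcS
  have e1 : X ∪ insert e0 C = insert e0 (X ∪ C) := union_insert e0 X C
  refine ⟨a1, a3, ?_, ?_⟩
  · unfold dl at hl
    rw [e1, ← a2, ← a6] at hl
    linarith
  · rw [a4]
    unfold ctr
    rw [union_comm (insert e0 C) X, e1, ← a6]; ring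

theorem T1 {q x : ℝ} (ha : Adm q x) (n : ℕ) : T1stmt q x E n := by
  induction n using Nat.strong_induction_on with
  | _ n IH =>
  intro r v S e0 hcard h he hne hc hv
  obtain ⟨hq, hx, hx1, hx2, hx3⟩ := ha
  rcases Nat.lt_or_ge S.card 2 with h2 | h2
  · -- base case
    have : S.card = 1 := by
      have := card_pos.mpr hne; omega
    obtain ⟨e, rfl⟩ := card_eq_one.mp this
    have hne' : e ≠ e0 := by
      rintro rfl; exact he (mem_singleton_self e)
    obtain ⟨k1, k2, k3⟩ := base_b (q := q) (v := v) h hne' hc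
    obtain ⟨k4, k5⟩ := Conn.root h he hne hc
    rw [k1, k2, k5, k3]
    have hve := hv e (mem_singleton_self e)
    refine ⟨?_, ?_⟩
    · rw [show (1 : ℤ) + 1 = 2 by norm_num, sg_two]; norm_num
    · rw [div_one, mul_inv_cancel_left₀ hq.ne']; exact hve
  · rcases structure_lemma h he hc h2 with
      ⟨X, C, hS, hd, hXne, hCne, hl1, hl2⟩ | ⟨X, C, hS, hd, hXne, hCne, hXC, hl1, hc1, hc2⟩
    · subst hS
      have hX0 : e0 ∉ X := fun h' => he (mem_union_left C h')
      have hC0 : e0 ∉ C := fun h' => he (mem_union_right X h')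
      have hcardS : (X ∪ C).card = X.card + C.card := card_union_of_disjoint hd
      have hXpos := card_pos.mpr hXne
      have hCpos := card_pos.mpr hCne
      have hdX : Disjoint X (insert e0 C) := by
        rw [disjoint_insert_right]; exact ⟨hX0, hd⟩
      have hdC : Disjoint C (insert e0 X) := by
        rw [disjoint_insert_right]; exact ⟨hC0, hd.symm⟩
      have e1 : X ∪ insert e0 C = insert e0 (X ∪ C) := union_insert e0 X C
      have e2 : C ∪ insert e0 X = insert e0 (X ∪ C) := by rw [union_insert, union_comm C X]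
      have o1 := T1_general (IH X.card (by omega)) (v := v) le_rfl h hdX hXne
        (insert_nonempty e0 C) hl1 (by rw [e1]; exact hc)
        (fun e h' => hv e (mem_union_left C h'))
      have o2 := T1_general (IH C.card (by omega)) (v := v) le_rfl h hdC hCne
        (insert_nonempty e0 X) hl2 (by rw [e2]; exact hc)
        (fun e h' => hv e (mem_union_right X h'))
      obtain ⟨-, rS⟩ := Conn.root h he hne hc
      rcases comp_SP (v := v) h hq.ne' hX0 hC0 hd hXne hl1 hl2 hc with
        ⟨k1, k2, k3⟩ | ⟨k1, k2, k3⟩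
      · rw [k2, k3]
        have := ok_par hq hx hx1 hx2 hx3 o1 o2
        have es : sg (r (X ∪ C) + 1) = sg (r X + 1) * sg (r C + 1) := by
          rw [← sg_add, show r X + 1 + (r C + 1) = (r (X ∪ C) + 1) + 2 by rw [rS]; linarith,
            sg_add_two]
        rw [es]; exact this
      · rw [k2, k3]
        have := ok_ser hq hx hx1 hx2 hx3 o1 o2
        have es : sg (r (X ∪ C) + 1) = -(sg (r X + 1) * sg (r C + 1)) := by
          rw [← sg_add, show r X + 1 + (r C + 1) = r (X ∪ C) + 2 by rw [rS]; linarith,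
            sg_add_two, sg_add_one]
        rw [es]; exact this
    · subst hS
      have hX0 : e0 ∉ X := fun h' => he (mem_union_left C h')
      have hC0 : e0 ∉ C := fun h' => he (mem_union_right X h')
      have hcardS : (X ∪ C).card = X.card + C.card := card_union_of_disjoint hd
      have hXpos := card_pos.mpr hXne
      have hCpos := card_pos.mpr hCne
      have hdX : Disjoint X (insert e0 C) := by
        rw [disjoint_insert_right]; exact ⟨hX0, hd⟩
      have e1 : X ∪ insert e0 C = insert e0 (X ∪ C) := union_insert e0 X C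
      have o1 := T1_general (IH X.card (by omega)) (v := v) le_rfl h hdX hXne
        (insert_nonempty e0 C) hl1 (by rw [e1]; exact hc)
        (fun e h' => hv e (mem_union_left C h'))
      have o2 := IH C.card (by omega) r v C e0 le_rfl h hC0 hCne hc1
        (fun e h' => hv e (mem_union_right X h'))
      have o3 := IH C.card (by omega) (ctr r X) v C e0 le_rfl (h.ctr_rk X) hC0 hCne hc2
        (fun e h' => hv e (mem_union_right X h'))
      obtain ⟨a1, a2, a3, a4⟩ := root_facts h hC0 hd hX0 hCne hl1 hc hc1 hc2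
      obtain ⟨k1, k2⟩ := comp_R (v := v) h hq.ne' hX0 hd hl1 a1 a2
      rw [k1, k2]
      have es3 : sg (ctr r X C + 1) = - sg (r C + 1) := by
        rw [show ctr r X C + 1 = r C + 1 - 1 by linarith, sg_sub_one]
      rw [es3] at o3
      have := ok_R hq hx (sg_sq (r X + 1)) (sg_sq (r C + 1)) o1 o2 o3
      have es : sg (r (X ∪ C) + 1) = sg (r X + 1) * sg (r C + 1) := by
        rw [← sg_add, show r X + 1 + (r C + 1) = (r (X ∪ C) + 1) + 2 by linarith,
          sg_add_two]
      rw [es]; exact this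

end Pool.Agent.Lib.MP_c21bd4_co
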