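import Mathlib
import Pool.Agent.Lib.MP_c21bd4_co.Inv
import Pool.Agent.Lib.MP_c21bd4_co.Gain

set_option autoImplicit false

/-!
The improvement step for bounds of effective weights of large networks.
-/

namespace Pool.Agent.Lib.MP_c21bd4_co

open Finset

/-- every network with at least `K` elements has effective weight in `J q x` -/
def BdK (q x0 x : ℝ) (K : ℕ) : Prop :=
  ∀ (E : Type) [DecidableEq E] (r : Finset E → ℤ) (v : E → ℝ) (S : Finset E) (e0 : E),
    Rk r → e0 ∉ S → S.Nonempty → Conn r (insert e0 S) → (∀ e ∈ S, v e ∈ J q x0) →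
    K ≤ S.card → q * b1 q v r S {e0} / b0 q v r S {e0} ∈ J q x

lemma BdK.general {q x0 x : ℝ} {K : ℕ} (H : BdK q x0 x K) {E : Type} [DecidableEq E]
    {r : Finset E → ℤ} {v : E → ℝ}
    {X Y : Finset E} (hX : K ≤ X.card) (h : Rk r) (hd : Disjoint X Y) (hXne : X.Nonempty)
    (hYne : Y.Nonempty) (hl : dl r X Y = 1) (hc : Conn r (X ∪ Y)) (hv : ∀ e ∈ X, v e ∈ J q x0) :
    q * b1 q v r X Y / b0 q v r X Y ∈ J q x := by
  obtain ⟨g, hg⟩ := hYne
  have hgX : g ∉ X := disjoint_right.mp hd hg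
  have h1 := h.sub_rk hd hl hgX
  have h2 := Conn.sub_conn h hd hl hc ⟨g, hg⟩ hgX
  have h3 := H E (sub r X Y g) v X g h1 hgX hXne h2 hv hX
  obtain ⟨e1, e2⟩ := sub_b (q := q) (v := v) h (Y := Y) hgX
  rwa [e1, e2] at h3

lemma b_congr {E : Type} [DecidableEq E] {q : ℝ} {v v' : E → ℝ} {r : Finset E → ℤ}
    {X Y : Finset E} (h : ∀ e ∈ X, v e = v' e) :
    b0 q v r X Y = b0 q v' r X Y ∧ b1 q v r X Y = b1 q v' r X Y := by
  have hw : ∀ A ∈ X.powerset, wt q v r A = wt q v' r A := by
    intro A hA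
    rw [mem_powerset] at hA
    unfold wt
    rw [prod_congr rfl fun e he => h e (hA he)]
  constructor
  · unfold b0
    refine sum_congr rfl fun A hA => ?_
    rw [hw A hA]
  · unfold b1
    refine sum_congr rfl fun A hA => ?_
    rw [hw A hA]

/-- real form of the positivity statement for a central weight -/
lemma factA_real {q τ N0 N1 d0 d1 e0 e1 w : ℝ} (hq : 0 < q) (hq1 : q ≠ 1)
    (hN0 : 0 < τ * N0) (hN1 : q * N1 / N0 < 0) (hd0 : 0 < τ * d0) (he0 : 0 < -τ * e0)
    (h1 : N0 + N1 = (d0 + d1) + w * (d0 / q + d1))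
    (h2 : N0 + q * N1 = (e0 + e1) + w * (e0 / q + e1)) :
    (0 < (q - 1) * ((q + ((q * (τ * d0)) * (q * d1 / d0) + (-τ * e0) * (q * e1 / e0)) /
          (q * (τ * d0) + (-τ * e0))) +
        w * (1 + ((q * (τ * d0)) * (q * d1 / d0) + (-τ * e0) * (q * e1 / e0)) /
          (q * (τ * d0) + (-τ * e0))))) ∧
    (0 < (q - 1) * ((q + ((q * (τ * d0)) * (q * d1 / d0) + q * (-τ * e0) * (q * e1 / e0)) /
          (q * (τ * d0) + q * (-τ * e0))) +
        w * (1 + ((q * (τ * d0)) * (q * d1 / d0) + q * (-τ * e0) * (q * e1 / e0)) /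
          (q * (τ * d0) + q * (-τ * e0))))) := by
  have n0 : N0 ≠ 0 := by rintro rfl; simp at hN0
  have n1 : d0 ≠ 0 := by rintro rfl; simp at hd0
  have n2 : e0 ≠ 0 := by rintro rfl; simp at he0
  have hτ : τ ≠ 0 := by rintro rfl; simp at hN0
  have hW1 : 0 < q * (τ * d0) + (-τ * e0) := by
    have := mul_pos hq hd0; linarith
  have hW2 : 0 < q * (τ * d0) + q * (-τ * e0) := by
    have := mul_pos hq hd0; have := mul_pos hq he0; linarith
  have hqq : 0 < (q - 1) ^ 2 := by
    have : q - 1 ≠ 0 := sub_ne_zero.mpr hq1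
    positivity
  have hN1' : 0 < -(τ * N1) := by
    have e : -(τ * N1) = (τ * N0) * (-(q * N1 / N0)) / q := by field_simp
    rw [e]
    apply div_pos _ hq
    apply mul_pos hN0; linarith
  set α := q * (τ * d0) with hα
  set β := -τ * e0 with hβ
  set a := q * d1 / d0 with ha
  set b := q * e1 / e0 with hb
  have ed1 : d1 = a * d0 / q := by rw [ha]; field_simp
  have ee1 : e1 = b * e0 / q := by rw [hb]; field_simp
  have key1 : (q - 1) * (τ * N0) * q = α * ((q + a) + w * (1 + a)) + β * ((q + b) + w * (1 + b)) := by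
    have : (q - 1) * N0 = q * (N0 + N1) - (N0 + q * N1) := by ring
    have h3 : (q - 1) * (τ * N0) * q = τ * q * (q * (N0 + N1) - (N0 + q * N1)) := by
      rw [← this]; ring
    rw [h3, h1, h2, hα, hβ, ed1, ee1]
    field_simp
    ring
  have key2 : (q - 1) * (-(τ * N1)) * q ^ 2 =
      α * ((q + a) + w * (1 + a)) + q * β * ((q + b) + w * (1 + b)) := by
    have : (q - 1) * N1 = (N0 + q * N1) - (N0 + N1) := by ring
    have h3 : (q - 1) * (-(τ * N1)) * q ^ 2 = - τ * q ^ 2 * ((N0 + q * N1) - (N0 + N1)) := by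
      rw [← this]; ring
    rw [h3, h1, h2, hα, hβ, ed1, ee1]
    field_simp
    ring
  constructor
  · have e : (q - 1) * ((q + (α * a + β * b) / (α + β)) + w * (1 + (α * a + β * b) / (α + β))) =
        ((q - 1) ^ 2 * (τ * N0) * q) / (α + β) := by
      have h3 : (q - 1) ^ 2 * (τ * N0) * q = (q - 1) * ((q - 1) * (τ * N0) * q) := by ring
      rw [h3, key1]
      have := hW1.ne'
      field_simp
      ring
    rw [e]
    positivity
  · have e : (q - 1) * ((q + (α * a + q * β * b) / (α + q * β)) +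
        w * (1 + (α * a + q * β * b) / (α + q * β))) =
        ((q - 1) ^ 2 * (-(τ * N1)) * q ^ 2) / (α + q * β) := by
      have h3 : (q - 1) ^ 2 * (-(τ * N1)) * q ^ 2 =
        (q - 1) * ((q - 1) * (-(τ * N1)) * q ^ 2) := by ring
      rw [h3, key2]
      have := hW2.ne'
      field_simp
      ring
    rw [e]
    positivity

variable {E : Type} [DecidableEq E]

/-- If the sub-network `X` is replaced by an edge with weight `-1` or `-q`, the effective weight
is in `J q (theta q vp)`. -/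
lemma factA {q vp x0 : ℝ} (ha : Adm q vp) (hq1 : q ≠ 1) (h1 : -1 < vp) (h2 : -q < vp)
    (hx0 : x0 ≤ vp) {r : Finset E → ℤ} {v : E → ℝ} (h : Rk r) {X C : Finset E} {e0 : E}
    (hX0 : e0 ∉ X) (hC0 : e0 ∉ C) (hd : Disjoint X C) (hXne : X.Nonempty) (hCne : C.Nonempty)
    (hl : dl r X (insert e0 C) = 1) (hc : Conn r (insert e0 (X ∪ C)))
    (hc1 : Conn r (insert e0 C)) (hc2 : Conn (ctr r X) (insert e0 C))
    (hv : ∀ e ∈ C, v e ∈ J q x0) :
    ((q * (sg (r C + 1) * b0 q v r C {e0})) * (q * b1 q v r C {e0} / b0 q v r C {e0}) +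
      (-sg (r C + 1) * b0 q v (ctr r X) C {e0}) *
        (q * b1 q v (ctr r X) C {e0} / b0 q v (ctr r X) C {e0})) /
      (q * (sg (r C + 1) * b0 q v r C {e0}) + (-sg (r C + 1) * b0 q v (ctr r X) C {e0}))
      ∈ J q (theta q vp) ∧
    ((q * (sg (r C + 1) * b0 q v r C {e0})) * (q * b1 q v r C {e0} / b0 q v r C {e0}) +
      q * (-sg (r C + 1) * b0 q v (ctr r X) C {e0}) *
        (q * b1 q v (ctr r X) C {e0} / b0 q v (ctr r X) C {e0})) /
      (q * (sg (r C + 1) * b0 q v r C {e0}) + q * (-sg (r C + 1) * b0 q v (ctr r X) C {e0}))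
      ∈ J q (theta q vp) := by
  have hq := ha.hq
  have hvp := ha.hx
  obtain ⟨a1, a2, a3, a4⟩ := root_facts h hC0 hd hX0 hCne hl hc hc1 hc2
  obtain ⟨-, rC⟩ := Conn.root h hC0 hCne hc1
  have hdX : Disjoint (insert e0 C) X := by
    rw [disjoint_insert_left]; exact ⟨hX0, hd.symm⟩
  have hl' : dl r (insert e0 C) X = 1 := by rw [dl_comm]; exact hl
  have hvp' : ∀ e ∈ C, v e ∈ J q vp := fun e he => J_mono hq hvp hx0 (hv e he)
  have hd0 := (T1 ha C.card r v C e0 le_rfl h hC0 hCne hc1 hvp').1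
  have he0 := (T1 ha C.card (ctr r X) v C e0 le_rfl (h.ctr_rk X) hC0 hCne hc2 hvp').1
  have es3 : sg (ctr r X C + 1) = - sg (r C + 1) := by
    rw [show ctr r X C + 1 = r C + 1 - 1 by linarith, sg_sub_one]
  rw [es3] at he0
  have main : ∀ w, w ∈ J q vp →
      (0 < (q - 1) * ((q + ((q * (sg (r C + 1) * b0 q v r C {e0})) * (q * b1 q v r C {e0} / b0 q v r C {e0}) + (-sg (r C + 1) * b0 q v (ctr r X) C {e0}) * (q * b1 q v (ctr r X) C {e0} / b0 q v (ctr r X) C {e0})) / (q * (sg (r C + 1) * b0 q v r C {e0}) + (-sg (r C + 1) * b0 q v (ctr r X) C {e0}))) +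
        w * (1 + ((q * (sg (r C + 1) * b0 q v r C {e0})) * (q * b1 q v r C {e0} / b0 q v r C {e0}) + (-sg (r C + 1) * b0 q v (ctr r X) C {e0}) * (q * b1 q v (ctr r X) C {e0} / b0 q v (ctr r X) C {e0})) / (q * (sg (r C + 1) * b0 q v r C {e0}) + (-sg (r C + 1) * b0 q v (ctr r X) C {e0}))))) ∧
      (0 < (q - 1) * ((q + ((q * (sg (r C + 1) * b0 q v r C {e0})) * (q * b1 q v r C {e0} / b0 q v r C {e0}) + q * (-sg (r C + 1) * b0 q v (ctr r X) C {e0}) * (q * b1 q v (ctr r X) C {e0} / b0 q v (ctr r X) C {e0})) / (q * (sg (r C + 1) * b0 q v r C {e0}) + q * (-sg (r C + 1) * b0 q v (ctr r X) C {e0}))) +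
        w * (1 + ((q * (sg (r C + 1) * b0 q v r C {e0})) * (q * b1 q v r C {e0} / b0 q v r C {e0}) + q * (-sg (r C + 1) * b0 q v (ctr r X) C {e0}) * (q * b1 q v (ctr r X) C {e0} / b0 q v (ctr r X) C {e0})) / (q * (sg (r C + 1) * b0 q v r C {e0}) + q * (-sg (r C + 1) * b0 q v (ctr r X) C {e0}))))) := by
    intro w hw
    have hcong : ∀ e ∈ C, Function.update v e0 w e = v e := by
      intro e he
      rw [Function.update_of_ne]
      rintro rfl; exact hC0 he
    obtain ⟨f1, f2⟩ := b_congr (q := q) (r := r) (Y := {e0}) hcong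
    obtain ⟨f3, f4⟩ := b_congr (q := q) (r := ctr r X) (Y := {e0}) hcong
    have hvw : ∀ e ∈ insert e0 C, Function.update v e0 w e ∈ J q vp := by
      intro e he
      rcases mem_insert.mp he with rfl | he
      · rw [Function.update_self]; exact hw
      · rw [hcong e he]; exact hvp' e he
    have o := T1_general (T1 ha (insert e0 C).card) (v := Function.update v e0 w) le_rfl h hdX
      (insert_nonempty e0 C) hXne hl'
      (by rw [insert_union, union_comm]; exact hc) hvw
    obtain ⟨z1, z2⟩ := Z_restrict_contract (v := Function.update v e0 w) h hq.ne' hdX hl'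
    have z3 := Z_root (q := q) (v := Function.update v e0 w) (r := r) hq.ne' hC0
      (fun A hA => h.dl01 (X := C) (Y := {e0}) (by rw [disjoint_singleton_right]; exact hC0)
        (by
          unfold dl
          rw [show C ∪ {e0} = insert e0 C by
            ext z; simp only [mem_union, mem_insert, mem_singleton]; tauto, ← rC, a1]; ring) hA)
      a1
    have z4 := Z_root (q := q) (v := Function.update v e0 w) (r := ctr r X) hq.ne' hC0
      (fun A hA => (h.ctr_rk X).dl01 (X := C) (Y := {e0})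
        (by rw [disjoint_singleton_right]; exact hC0)
        (by
          have := (Conn.root (h.ctr_rk X) hC0 hCne hc2).2
          unfold dl
          rw [show C ∪ {e0} = insert e0 C by
            ext z; simp only [mem_union, mem_insert, mem_singleton]; tauto, ← this, a2]; ring) hA)
      a2
    rw [f1, f2, Function.update_self] at z3
    rw [f3, f4, Function.update_self] at z4
    rw [z1] at z3
    rw [z2] at z4
    rw [← rC] at o
    exact factA_real hq hq1 o.1 (neg_of_mem hvp o.2) hd0 he0 z3 z4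
  have m1 := main vp ⟨by
    rw [div_le_iff_of_neg hvp]
    have := ha.h1
    have := ha.h2
    rcases le_total q 1 with h' | h'
    · nlinarith
    · nlinarith, le_rfl⟩
  have m2 := main (q / vp) ⟨le_rfl, by
    rw [div_le_iff_of_neg hvp]
    have := ha.h1
    have := ha.h2
    rcases le_total q 1 with h' | h'
    · nlinarith
    · nlinarith⟩
  exact ⟨mem_theta hq hvp h1 h2 m1.1 m2.1, mem_theta hq hvp h1 h2 m1.2 m2.2⟩

/-- the improvement step -/
theorem step {q vp x0 x c : ℝ} {K : ℕ} (hav : Adm q vp) (ha : Adm q x0) (hq1 : q ≠ 1)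
    (h1 : -1 < vp) (h2 : -q < vp) (hx0 : x0 ≤ vp) (hxx0 : x ≤ x0) (hx1 : -1 ≤ x)
    (hxq : -q ≤ x) (hT : theta q vp ≤ x) (hS : StepCond q x0 x c (theta q vp))
    (H : BdK q x0 x K) : BdK q x0 c (2 * K + 2) := by
  intro E _ r v S e0 h he hne hc hv hcard
  obtain ⟨hq, hx0n, hx01, hx0q, hx03⟩ := ha
  have hxn : x < 0 := lt_of_le_of_lt hxx0 hx0n
  have hA : Adm q x0 := ⟨hq, hx0n, hx01, hx0q, hx03⟩
  rcases structure_lemma h he hc (by omega) with
    ⟨X, C, hSu, hd, hXne, hCne, hl1, hl2⟩ | ⟨X, C, hSu, hd, hXne, hCne, hXC, hl1, hc1, hc2⟩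
  · subst hSu
    have hX0 : e0 ∉ X := fun h' => he (mem_union_left C h')
    have hC0 : e0 ∉ C := fun h' => he (mem_union_right X h')
    have hcardS : (X ∪ C).card = X.card + C.card := card_union_of_disjoint hd
    have hdX : Disjoint X (insert e0 C) := by
      rw [disjoint_insert_right]; exact ⟨hX0, hd⟩
    have hdC : Disjoint C (insert e0 X) := by
      rw [disjoint_insert_right]; exact ⟨hC0, hd.symm⟩
    have e1 : X ∪ insert e0 C = insert e0 (X ∪ C) := union_insert e0 X C
    have e2 : C ∪ insert e0 X = insert e0 (X ∪ C) := by rw [union_insert, union_comm C X]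
    have hcX : Conn r (X ∪ insert e0 C) := by rw [e1]; exact hc
    have hcC : Conn r (C ∪ insert e0 X) := by rw [e2]; exact hc
    have hvX : ∀ e ∈ X, v e ∈ J q x0 := fun e h' => hv e (mem_union_left C h')
    have hvC : ∀ e ∈ C, v e ∈ J q x0 := fun e h' => hv e (mem_union_right X h')
    have o1 := T1_general (T1 hA X.card) (v := v) le_rfl h hdX hXne
      (insert_nonempty e0 C) hl1 hcX hvX
    have o2 := T1_general (T1 hA C.card) (v := v) le_rfl h hdC hCne
      (insert_nonempty e0 X) hl2 hcC hvC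
    have n1 := o1.ne
    have n2 := o2.ne
    have hbig : K ≤ X.card ∨ K ≤ C.card := by omega
    -- the key membership for the pair and for the dual pair
    have hpair : (1 + q * b1 q v r X (insert e0 C) / b0 q v r X (insert e0 C)) *
        (1 + q * b1 q v r C (insert e0 X) / b0 q v r C (insert e0 X)) - 1 ∈ J q c ∧
        (1 + q / (q * b1 q v r X (insert e0 C) / b0 q v r X (insert e0 C))) *
        (1 + q / (q * b1 q v r C (insert e0 X) / b0 q v r C (insert e0 X))) - 1 ∈ J q c := by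
      rcases hbig with hb | hb
      · have m1 := H.general (v := v) hb h hdX hXne (insert_nonempty e0 C) hl1 hcX hvX
        exact ⟨par_step hq hx0n hx01 hx0q hxn hx1 hxq hS m1 o2.2,
          par_step hq hx0n hx01 hx0q hxn hx1 hxq hS (inv_mem hq hxn m1)
            (inv_mem hq hx0n o2.2)⟩
      · have m1 := H.general (v := v) hb h hdC hCne (insert_nonempty e0 X) hl2 hcC hvC
        constructor
        · rw [mul_comm]
          exact par_step hq hx0n hx01 hx0q hxn hx1 hxq hS m1 o1.2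
        · rw [mul_comm]
          exact par_step hq hx0n hx01 hx0q hxn hx1 hxq hS (inv_mem hq hxn m1)
            (inv_mem hq hx0n o1.2)
    rcases comp_SP (v := v) h hq.ne' hX0 hC0 hd hXne hl1 hl2 hc with
      ⟨k1, k2, k3⟩ | ⟨k1, k2, k3⟩
    · rw [k2, k3]
      convert hpair.1 using 1
      field_simp
      ring
    · rw [k2, k3]
      obtain ⟨-, k5⟩ := ser_val hq o1.1 o2.1 (neg_of_mem hx0n o1.2) (neg_of_mem hx0n o2.2)
        rfl (neg_of_mem hS.hc hpair.2)
      rw [k5]
      exact inv_mem hq hS.hc hpair.2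
  · subst hSu
    have hX0 : e0 ∉ X := fun h' => he (mem_union_left C h')
    have hC0 : e0 ∉ C := fun h' => he (mem_union_right X h')
    have hcardS : (X ∪ C).card = X.card + C.card := card_union_of_disjoint hd
    have hdX : Disjoint X (insert e0 C) := by
      rw [disjoint_insert_right]; exact ⟨hX0, hd⟩
    have e1 : X ∪ insert e0 C = insert e0 (X ∪ C) := union_insert e0 X C
    have hvX : ∀ e ∈ X, v e ∈ J q x0 := fun e h' => hv e (mem_union_left C h')
    have hvC : ∀ e ∈ C, v e ∈ J q x0 := fun e h' => hv e (mem_union_right X h')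
    have o1 := T1_general (T1 hA X.card) (v := v) le_rfl h hdX hXne
      (insert_nonempty e0 C) hl1 (by rw [e1]; exact hc) hvX
    have o2 := T1 hA C.card r v C e0 le_rfl h hC0 hCne hc1 hvC
    have o3 := T1 hA C.card (ctr r X) v C e0 le_rfl (h.ctr_rk X) hC0 hCne hc2 hvC
    have m2 := H E r v C e0 h hC0 hCne hc1 hvC (by omega)
    have m3 := H E (ctr r X) v C e0 (h.ctr_rk X) hC0 hCne hc2 hvC (by omega)
    obtain ⟨a1, a2, a3, a4⟩ := root_facts h hC0 hd hX0 hCne hl1 hc hc1 hc2
    obtain ⟨k1, k2⟩ := comp_R (v := v) h hq.ne' hX0 hd hl1 a1 a2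
    rw [k1, k2]
    have es3 : sg (ctr r X C + 1) = - sg (r C + 1) := by
      rw [show ctr r X C + 1 = r C + 1 - 1 by linarith, sg_sub_one]
    rw [es3] at o3
    obtain ⟨-, k4⟩ := R_val (d1 := b1 q v r C {e0}) (e1 := b1 q v (ctr r X) C {e0}) hq o1.1
      o2.1 o3.1 (neg_of_mem hx0n o1.2) (sg_sq (r X + 1)) (sg_sq (r C + 1))
    rw [k4]
    obtain ⟨g1, g2⟩ := factA hav hq1 h1 h2 hx0 h hX0 hC0 hd hXne hCne hl1 hc hc1 hc2 hvC
    exact gain_mem hq hx0n hx01 hx0q (mul_pos hq o2.1) o3.1 hxn m2 m3 hT g1 g2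
      (by rw [neg_neg]; exact o1.2) hS.hc hS.v hS.vi

end Pool.Agent.Lib.MP_c21bd4_co
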