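import Mathlib
import Pool.Agent.Lib.MP_c21bd4_co.Step

set_option autoImplicit false

/-!
The asymptotic bound for effective weights of large networks.
-/

namespace Pool.Agent.Lib.MP_c21bd4_co

open Finset

/-- the four series/parallel inequalities -/
lemma strict_ineqs {q x0 X : ℝ} (hq : 0 < q) (hq1 : q ≠ 1) (hx0 : x0 < 0) (h01 : -1 < x0)
    (h0q : -q < x0) (hκ : 0 < x0 ^ 3 - 2 * q * x0 - q ^ 2) (hq2 : 1 < q → x0 < -q / 2)
    (hX : theta q x0 ≤ X) (hXx : X ≤ x0) :
    (1 + q / X) * (1 + q / x0) - 1 < X ∧ (1 + X) * (1 + x0) - 1 < X ∧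
    q / ((1 + q / X) * (1 + x0) - 1) < X ∧ q / ((1 + X) * (1 + q / x0) - 1) < X := by
  obtain ⟨g1, g2⟩ := theta_gt hq hq1 hx0 h01 h0q
  have hXn : X < 0 := lt_of_le_of_lt hXx hx0
  have hX1 : -1 < X := by linarith
  have hXq : -q < X := by linarith
  have hXne := hXn.ne
  have hx0ne := hx0.ne
  have hXx0 : 0 < X * x0 := mul_pos_of_neg_of_neg hXn hx0
  have a1 := one_add_div_nonpos hXn hXq.le
  have a2 := one_add_div_nonpos hx0 h0q.le
  -- polynomial facts
  have p1 : 0 < X ^ 2 * x0 - q * X - q * x0 - q ^ 2 := by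
    unfold theta at hX g1 g2
    split_ifs at hX g1 g2 with hlt
    · have f1 : 0 < q * x0 * (q - 1) := by
        have : 0 < x0 * (q - 1) := mul_pos_of_neg_of_neg hx0 (by linarith)
        nlinarith
      have id1 : (x0 + q) * (X ^ 2 * x0 - q * X - q * x0 - q ^ 2) =
          (X + q) * (x0 ^ 3 - 2 * q * x0 - q ^ 2) + (x0 - X) * (q * x0 * (q - 1)) +
            (x0 + q) * (-x0) * (x0 - X) * (X + q) := by ring
      have f2 : 0 < (X + q) * (x0 ^ 3 - 2 * q * x0 - q ^ 2) := mul_pos (by linarith) hκ
      have f3 : 0 ≤ (x0 - X) * (q * x0 * (q - 1)) := mul_nonneg (by linarith) f1.le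
      have f4 : 0 ≤ (x0 + q) * (-x0) * (x0 - X) * (X + q) := by
        apply mul_nonneg _ (by linarith)
        apply mul_nonneg _ (by linarith)
        apply mul_nonneg <;> linarith
      have f5 : 0 < (x0 + q) * (X ^ 2 * x0 - q * X - q * x0 - q ^ 2) := by rw [id1]; linarith
      exact (mul_pos_iff_of_pos_left (by linarith)).mp f5
    · have h' : 1 < q := lt_of_le_of_ne (not_lt.mp hlt) (Ne.symm hq1)
      have hqx : 0 < q + x0 := by linarith
      set t := -(q * (1 + x0)) / (q + x0) with ht
      have hqxne := hqx.ne'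
      have f1 : 0 < t ^ 2 * x0 - q * t - q * x0 - q ^ 2 := by
        have : t ^ 2 * x0 - q * t - q * x0 - q ^ 2 =
            q * (q - 1) * (x0 ^ 3 - 2 * q * x0 - q ^ 2) / (q + x0) ^ 2 := by
          rw [ht]; field_simp; ring
        rw [this]
        apply div_pos _ (by positivity)
        apply mul_pos _ hκ
        apply mul_pos hq; linarith
      rcases eq_or_lt_of_le (hX.trans hXx) with htx | htx
      · have : X = x0 := le_antisymm hXx (htx ▸ hX)
        rw [this]; nlinarith
      · have id1 : (x0 - t) * (X ^ 2 * x0 - q * X - q * x0 - q ^ 2) =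
          (X - t) * (x0 ^ 3 - 2 * q * x0 - q ^ 2) +
            (x0 - X) * (t ^ 2 * x0 - q * t - q * x0 - q ^ 2) +
            (x0 - t) * (-x0) * (x0 - X) * (X - t) := by ring
        have f2 : 0 ≤ (X - t) * (x0 ^ 3 - 2 * q * x0 - q ^ 2) := mul_nonneg (by linarith) hκ.le
        have f3 : 0 ≤ (x0 - X) * (t ^ 2 * x0 - q * t - q * x0 - q ^ 2) :=
          mul_nonneg (by linarith) f1.le
        have f4 : 0 ≤ (x0 - t) * (-x0) * (x0 - X) * (X - t) := by
          apply mul_nonneg _ (by linarith)
          apply mul_nonneg _ (by linarith)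
          apply mul_nonneg <;> linarith
        have f5 : 0 < (x0 - t) * (X ^ 2 * x0 - q * X - q * x0 - q ^ 2) := by
          rw [id1]
          rcases eq_or_lt_of_le hX with hXt | hXt
          · have : 0 < (x0 - X) * (t ^ 2 * x0 - q * t - q * x0 - q ^ 2) :=
              mul_pos (by linarith) f1
            linarith
          · have : 0 < (X - t) * (x0 ^ 3 - 2 * q * x0 - q ^ 2) := mul_pos (by linarith) hκ
            linarith
        exact (mul_pos_iff_of_pos_left (by linarith)).mp f5
  have p4 : 0 < X ^ 2 * (x0 + q) + X * q - x0 * q := by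
    unfold theta at hX g1 g2
    split_ifs at hX g1 g2 with hlt
    · set t := -(q + x0) / (1 + x0) with ht
      have h1x : 0 < 1 + x0 := by linarith
      have h1xne := h1x.ne'
      have f1 : 0 < t ^ 2 * (x0 + q) + t * q - x0 * q := by
        have : t ^ 2 * (x0 + q) + t * q - x0 * q =
            (1 - q) * (x0 ^ 3 - 2 * q * x0 - q ^ 2) / (1 + x0) ^ 2 := by
          rw [ht]; field_simp; ring
        rw [this]
        apply div_pos _ (by positivity)
        apply mul_pos _ hκ; linarith
      have id1 : (t + q) * (X ^ 2 * (x0 + q) + X * q - x0 * q) =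
          (X + q) * (t ^ 2 * (x0 + q) + t * q - x0 * q) +
            (X - t) * (q * (1 - q) * (x0 + q)) +
            (x0 + q) * (X - t) * (t + q) * (X + q) := by ring
      have f2 : 0 < (X + q) * (t ^ 2 * (x0 + q) + t * q - x0 * q) := mul_pos (by linarith) f1
      have f3 : 0 ≤ (X - t) * (q * (1 - q) * (x0 + q)) := by
        apply mul_nonneg (by linarith)
        apply mul_nonneg _ (by linarith)
        apply mul_nonneg <;> linarith
      have f4 : 0 ≤ (x0 + q) * (X - t) * (t + q) * (X + q) := by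
        apply mul_nonneg _ (by linarith)
        apply mul_nonneg _ (by linarith)
        apply mul_nonneg <;> linarith
      have f5 : 0 < (t + q) * (X ^ 2 * (x0 + q) + X * q - x0 * q) := by rw [id1]; linarith
      exact (mul_pos_iff_of_pos_left (by linarith)).mp f5
    · have h' : 1 < q := lt_of_le_of_ne (not_lt.mp hlt) (Ne.symm hq1)
      have h2 := hq2 h'
      have id1 : X ^ 2 * (x0 + q) + X * q - x0 * q =
          x0 * (1 - q) + (X + 1) * ((X - 1) * (x0 + q) + q) := by ring
      have f1 : 0 < x0 * (1 - q) := mul_pos_of_neg_of_neg hx0 (by linarith)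
      have f2 : 0 < (X - 1) * (x0 + q) + q := by nlinarith
      have f3 : 0 < (X + 1) * ((X - 1) * (x0 + q) + q) := mul_pos (by linarith) f2
      rw [id1]; linarith
  refine ⟨?_, ?_, ?_, ?_⟩
  · have : (1 + q / X) * (1 + q / x0) - 1 - X =
        -((X ^ 2 * x0 - q * X - q * x0 - q ^ 2) / (X * x0)) := by
      field_simp; ring
    have h3 := div_pos p1 hXx0
    linarith
  · nlinarith
  · have hD : (1 + q / X) * (1 + x0) - 1 < 0 := by
      have : (1 + q / X) * (1 + x0) ≤ 0 := mul_nonpos_of_nonpos_of_nonneg a1 (by linarith)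
      linarith
    rw [div_lt_iff_of_neg hD]
    have : X * ((1 + q / X) * (1 + x0) - 1) = X * x0 + q * x0 + q := by
      field_simp; ring
    rw [this]
    nlinarith
  · have hD : (1 + X) * (1 + q / x0) - 1 < 0 := by
      have : (1 + X) * (1 + q / x0) ≤ 0 := mul_nonpos_of_nonneg_of_nonpos (by linarith) a2
      linarith
    rw [div_lt_iff_of_neg hD]
    have : X * ((1 + X) * (1 + q / x0) - 1) - q =
        (X ^ 2 * (x0 + q) + X * q - x0 * q) / x0 := by
      field_simp; ring
    have h3 : (X ^ 2 * (x0 + q) + X * q - x0 * q) / x0 < 0 := div_neg_of_pos_of_neg p4 hx0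
    linarith

lemma BdK.mono {q x0 x x' : ℝ} {K : ℕ} (hq : 0 < q) (hx' : x' < 0) (hxx : x ≤ x')
    (H : BdK q x0 x K) : BdK q x0 x' K := by
  intro E _ r v S e0 h he hne hc hv hcard
  exact J_mono hq hx' hxx (H E r v S e0 h he hne hc hv hcard)

theorem exists_bound {q vp x0 : ℝ} (hav : Adm q vp) (hq1 : q ≠ 1)
    (h1 : -1 < vp) (h2 : -q < vp) (hx0 : x0 < vp) (h01 : -1 < x0)
    (h0q : -q < x0) (hκ : 0 < x0 ^ 3 - 2 * q * x0 - q ^ 2) (hq2 : 1 < q → x0 < -q / 2) :
    ∃ x, -1 < x ∧ -q < x ∧ x < theta q x0 ∧ ∃ K, BdK q x0 x K := by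
  have hq := hav.hq
  have hx0n : x0 < 0 := hx0.trans hav.hx
  have ha : Adm q x0 := ⟨hq, hx0n, h01.le, h0q.le, hκ.le⟩
  have hθneg := theta_neg hq h01 h0q
  obtain ⟨g1, g2⟩ := theta_gt hq hq1 hx0n h01 h0q
  have hTθ : theta q vp < theta q x0 := theta_anti hq1 hq h01 h0q hx0
  have base : BdK q x0 x0 0 := by
    intro E _ r v S e0 h he hne hc hv hcard
    exact (T1 ha S.card r v S e0 le_rfl h he hne hc hv).2
  by_contra hcon
  push Not at hcon
  -- every bound is at least theta
  have hlow : ∀ x K, BdK q x0 x K → theta q x0 ≤ x := by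
    intro x K H
    by_contra hlt
    push Not at hlt
    obtain ⟨m, hm1, hm2⟩ := exists_between (max_lt (max_lt g1 g2) hlt)
    have e1 : -1 < m := (le_max_left _ _).trans_lt ((le_max_left _ _).trans_lt hm1)
    have e2 : -q < m := (le_max_right _ _).trans_lt ((le_max_left _ _).trans_lt hm1)
    have e3 : x ≤ m := (le_max_right _ _).trans hm1.le
    exact hcon m e1 e2 hm2 K (H.mono hq (hm2.trans hθneg) e3)
  set Sx : Set ℝ := {x | x ≤ x0 ∧ ∃ K, BdK q x0 x K} with hSx
  have hne : Sx.Nonempty := ⟨x0, le_rfl, 0, base⟩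
  have hbdd : BddBelow Sx := ⟨theta q x0, fun x hx => by
    obtain ⟨-, K, hK⟩ := hx
    exact hlow x K hK⟩
  set X := sInf Sx with hXdef
  have hX0 : theta q x0 ≤ X := le_csInf hne fun x hx => by
    obtain ⟨-, K, hK⟩ := hx
    exact hlow x K hK
  have hXx : X ≤ x0 := csInf_le hbdd ⟨le_rfl, 0, base⟩
  have hXn : X < 0 := lt_of_le_of_lt hXx hx0n
  have hX1 : -1 < X := by linarith
  have hXq : -q < X := by linarith
  have hXne := hXn.ne
  obtain ⟨s1, s2, s3, s4⟩ := strict_ineqs hq hq1 hx0n h01 h0q hκ hq2 hX0 hXx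
  have hTX : theta q vp < X := lt_of_lt_of_le hTθ hX0
  have hmin : 0 < min 1 q := lt_min one_pos hq
  have s5 : theta q vp + (1 - -x0 / min 1 q) * (X - theta q vp) < X := by
    have : 0 < -x0 / min 1 q := div_pos (by linarith) hmin
    nlinarith
  obtain ⟨c, hc1, hc2⟩ := exists_between (max_lt (max_lt (max_lt s1 s2) (max_lt s3 s4))
    (max_lt s5 hTX))
  simp only [max_lt_iff] at hc1
  obtain ⟨⟨⟨c1, c2⟩, c3, c4⟩, c5, c6⟩ := hc1
  have a1 := one_add_div_nonpos hXn hXq.le
  have a2 := one_add_div_nonpos hx0n h0q.le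
  have hD3 : (1 + q / X) * (1 + x0) - 1 ≠ 0 := by
    have : (1 + q / X) * (1 + x0) ≤ 0 := mul_nonpos_of_nonpos_of_nonneg a1 (by linarith)
    intro h'; linarith
  have hD4 : (1 + X) * (1 + q / x0) - 1 ≠ 0 := by
    have : (1 + X) * (1 + q / x0) ≤ 0 := mul_nonpos_of_nonneg_of_nonpos (by linarith) a2
    intro h'; linarith
  have cdiv : ContinuousAt (fun x : ℝ => q / x) X := continuousAt_const.div continuousAt_id hXne
  have ev1 : ∀ᶠ x in nhds X, (1 + q / x) * (1 + q / x0) - 1 < c := by
    have : ContinuousAt (fun x : ℝ => (1 + q / x) * (1 + q / x0) - 1) X :=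
      ((continuousAt_const.add cdiv).mul continuousAt_const).sub continuousAt_const
    exact this.eventually_lt continuousAt_const c1
  have ev2 : ∀ᶠ x in nhds X, (1 + x) * (1 + x0) - 1 < c := by
    have : ContinuousAt (fun x : ℝ => (1 + x) * (1 + x0) - 1) X :=
      ((continuousAt_const.add continuousAt_id).mul continuousAt_const).sub continuousAt_const
    exact this.eventually_lt continuousAt_const c2
  have ev3 : ∀ᶠ x in nhds X, q / ((1 + q / x) * (1 + x0) - 1) < c := by
    have : ContinuousAt (fun x : ℝ => q / ((1 + q / x) * (1 + x0) - 1)) X :=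
      continuousAt_const.div
        (((continuousAt_const.add cdiv).mul continuousAt_const).sub continuousAt_const) hD3
    exact this.eventually_lt continuousAt_const c3
  have ev4 : ∀ᶠ x in nhds X, q / ((1 + x) * (1 + q / x0) - 1) < c := by
    have : ContinuousAt (fun x : ℝ => q / ((1 + x) * (1 + q / x0) - 1)) X :=
      continuousAt_const.div
        (((continuousAt_const.add continuousAt_id).mul continuousAt_const).sub
          continuousAt_const) hD4
    exact this.eventually_lt continuousAt_const c4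
  have ev5 : ∀ᶠ x in nhds X,
      theta q vp + (1 - -x0 / min 1 q) * (x - theta q vp) < c := by
    have : ContinuousAt (fun x : ℝ =>
        theta q vp + (1 - -x0 / min 1 q) * (x - theta q vp)) X :=
      continuousAt_const.add (continuousAt_const.mul (continuousAt_id.sub continuousAt_const))
    exact this.eventually_lt continuousAt_const c5
  have evall := ev1.and (ev2.and (ev3.and (ev4.and ev5)))
  obtain ⟨l, u, ⟨hlX, hXu⟩, hlu⟩ := mem_nhds_iff_exists_Ioo_subset.mp evall
  obtain ⟨x, hxS, hxu⟩ := exists_lt_of_csInf_lt hne hXu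
  have hXlex : X ≤ x := csInf_le hbdd hxS
  obtain ⟨hxx0, K, hK⟩ := hxS
  obtain ⟨t1, t2, t3, t4, t5⟩ := hlu ⟨lt_of_lt_of_le hlX hXlex, hxu⟩
  have hxn : x < 0 := lt_of_le_of_lt hxx0 hx0n
  have hcn : c < 0 := hc2.trans hXn
  have b1 := one_add_div_nonpos hxn (show -q ≤ x by linarith)
  have hE3 : (1 + q / x) * (1 + x0) - 1 < 0 := by
    have : (1 + q / x) * (1 + x0) ≤ 0 := mul_nonpos_of_nonpos_of_nonneg b1 (by linarith)
    linarith
  have hE4 : (1 + x) * (1 + q / x0) - 1 < 0 := by
    have : (1 + x) * (1 + q / x0) ≤ 0 := mul_nonpos_of_nonneg_of_nonpos (by linarith) a2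
    linarith
  have hSC : StepCond q x0 x c (theta q vp) := by
    refine ⟨hcn, t1.le, t2.le, ?_, ?_, c6.le, t5.le⟩
    · rw [div_le_iff_of_neg hcn]
      rw [div_lt_iff_of_neg hE3] at t3
      linarith
    · rw [div_le_iff_of_neg hcn]
      rw [div_lt_iff_of_neg hE4] at t4
      linarith
  have hfin := step hav ha hq1 h1 h2 hx0.le hxx0 (by linarith) (by linarith)
    (by linarith) hSC hK
  have : X ≤ c := csInf_le hbdd ⟨by linarith, _, hfin⟩
  linarith

variable {E : Type} [DecidableEq E]

/-- `Z` of a connected matroid through a root element -/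
lemma Z_eq {q : ℝ} {v : E → ℝ} (hq : q ≠ 0) {r : Finset E → ℤ} (h : Rk r) {S : Finset E}
    {e0 : E} (he : e0 ∉ S) (hne : S.Nonempty) (hc : Conn r (insert e0 S))
    (hb : b0 q v r S {e0} ≠ 0) :
    Z q v r (insert e0 S) = b0 q v r S {e0} / q *
      ((q + q * b1 q v r S {e0} / b0 q v r S {e0}) +
        v e0 * (1 + q * b1 q v r S {e0} / b0 q v r S {e0})) := by
  obtain ⟨a1, a2⟩ := Conn.root h he hne hc
  have := Z_root (q := q) (v := v) (r := r) hq he
    (fun A hA => h.dl01 (X := S) (Y := {e0}) (by rw [disjoint_singleton_right]; exact he)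
      (by
        unfold dl
        rw [show S ∪ {e0} = insert e0 S by
          ext z; simp only [mem_union, mem_insert, mem_singleton]; tauto, ← a2, a1]; ring) hA)
    a1
  rw [this]
  field_simp

/-- large connected matroids are good -/
theorem good_large {q vp x0 : ℝ} (hav : Adm q vp) (hq1 : q ≠ 1)
    (h1 : -1 < vp) (h2 : -q < vp) (hx0 : x0 < vp) (h01 : -1 < x0)
    (h0q : -q < x0) (hκ : 0 < x0 ^ 3 - 2 * q * x0 - q ^ 2) (hq2 : 1 < q → x0 < -q / 2) :
    ∃ K : ℕ, ∀ (E : Type) [DecidableEq E] (r : Finset E → ℤ) (v : E → ℝ) (G : Finset E),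
      Rk r → Conn r G → 2 ≤ G.card → (∀ e ∈ G, v e ∈ J q x0) → K ≤ G.card →
      0 < sg (r G) * ((1 - q) * Z q v r G) := by
  obtain ⟨x, hx1, hxq, hxθ, K, hK⟩ := exists_bound hav hq1 h1 h2 hx0 h01 h0q hκ hq2
  have hq := hav.hq
  have hx0n : x0 < 0 := hx0.trans hav.hx
  have ha : Adm q x0 := ⟨hq, hx0n, h01.le, h0q.le, hκ.le⟩
  refine ⟨K + 1, ?_⟩
  intro E _ r v G h hc hG2 hv hKG
  obtain ⟨e0, he0⟩ : G.Nonempty := card_pos.mp (by omega)
  set S := G.erase e0 with hS
  have he : e0 ∉ S := notMem_erase e0 G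
  have hins : insert e0 S = G := insert_erase he0
  have hcardS : S.card + 1 = G.card := card_erase_add_one he0
  have hne : S.Nonempty := card_pos.mp (by omega)
  rw [← hins] at hc hv ⊢
  have hvS : ∀ e ∈ S, v e ∈ J q x0 := fun e h' => hv e (mem_insert_of_mem h')
  have o := T1 ha S.card r v S e0 le_rfl h he hne hc hvS
  have m := hK E r v S e0 h he hne hc hvS (by omega)
  have hgood := good_of_lt hq hq1 hx0n h01 h0q hx1 hxq hxθ m (hv e0 (mem_insert_self e0 S))
  obtain ⟨-, a2⟩ := Conn.root h he hne hc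
  rw [Z_eq hq.ne' h he hne hc o.ne, ← a2]
  have o1 := o.1
  rw [sg_add_one] at o1
  have e : sg (r S) * ((1 - q) * (b0 q v r S {e0} / q *
      ((q + q * b1 q v r S {e0} / b0 q v r S {e0}) +
        v e0 * (1 + q * b1 q v r S {e0} / b0 q v r S {e0})))) =
      (-sg (r S) * b0 q v r S {e0}) * ((q - 1) * ((q + q * b1 q v r S {e0} / b0 q v r S {e0}) +
        v e0 * (1 + q * b1 q v r S {e0} / b0 q v r S {e0}))) / q := by ring
  rw [e]
  exact div_pos (mul_pos o1 hgood) hq

/-- if all weights are central, every connected matroid is good -/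
theorem good_central {q vp : ℝ} (hav : Adm q vp) (hq1 : q ≠ 1)
    (h1 : -1 < vp) (h2 : -q < vp)
    (r : Finset E → ℤ) (v : E → ℝ) (G : Finset E)
    (h : Rk r) (hc : Conn r G) (hG2 : 2 ≤ G.card) (hv : ∀ e ∈ G, v e ∈ J q (-(min 1 q))) :
    0 < sg (r G) * ((1 - q) * Z q v r G) := by
  have hq := hav.hq
  have hmin : 0 < min 1 q := lt_min one_pos hq
  have hsub : J q (-(min 1 q)) ⊆ J q vp := J_mono hq hav.hx (by
    rcases le_total 1 q with h' | h'
    · rw [min_eq_left h']; exact h1.le
    · rw [min_eq_right h']; exact h2.le)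
  obtain ⟨e0, he0⟩ : G.Nonempty := card_pos.mp (by omega)
  set S := G.erase e0 with hS
  have he : e0 ∉ S := notMem_erase e0 G
  have hins : insert e0 S = G := insert_erase he0
  have hcardS : S.card + 1 = G.card := card_erase_add_one he0
  have hne : S.Nonempty := card_pos.mp (by omega)
  rw [← hins] at hc hv ⊢
  have hvS : ∀ e ∈ S, v e ∈ J q vp := fun e h' => hsub (hv e (mem_insert_of_mem h'))
  have o := T1 hav S.card r v S e0 le_rfl h he hne hc hvS
  have hneg := neg_of_mem hav.hx o.2
  have hw := hv e0 (mem_insert_self e0 S)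
  -- goodness of the pair
  have hgood : 0 < (q - 1) * ((q + q * b1 q v r S {e0} / b0 q v r S {e0}) +
      v e0 * (1 + q * b1 q v r S {e0} / b0 q v r S {e0})) := by
    generalize q * b1 q v r S {e0} / b0 q v r S {e0} = a at *
    generalize v e0 = w at *
    -- affine in `w`, positive at `w = -1` and `w = -q`
    have hw' : (w + 1) * (w + q) ≤ 0 := by
      rw [mem_J_iff (by linarith)] at hw
      rcases le_total 1 q with h' | h'
      · rw [min_eq_left h'] at hw
        have u1 : 0 ≤ w + q := by linarith [hw.1]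
        have u2 : w + 1 ≤ 0 := by linarith [hw.2]
        exact mul_nonpos_of_nonpos_of_nonneg u2 u1
      · rw [min_eq_right h'] at hw
        have u1 : w + q ≤ 0 := by linarith [hw.2]
        have u2 : 0 ≤ w + 1 := by
          have := hw.1
          by_contra hcon
          push Not at hcon
          nlinarith
        exact mul_nonpos_of_nonneg_of_nonpos u2 u1
    have hq1' : q - 1 ≠ 0 := sub_ne_zero.mpr hq1
    have hsq : 0 < (q - 1) ^ 2 := by positivity
    -- (q-1) * L = (w+q) * (q-1) * 1 ... combination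
    have id1 : (q - 1) * ((q + a) + w * (1 + a)) =
        (q - 1) * (w + q) + (-a) * (-((q - 1) * (w + 1))) := by ring
    rcases lt_or_gt_of_ne hq1 with h' | h'
    · have u1 : w + q ≤ 0 := by
        by_contra hcon
        push Not at hcon
        have : 0 < w + 1 := by linarith
        have := mul_pos this hcon
        linarith
      have u2 : 0 ≤ w + 1 := by
        by_contra hcon
        push Not at hcon
        have : w + q < 0 := by linarith
        have := mul_pos_of_neg_of_neg hcon this
        linarith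
      rw [id1]
      have v1 : 0 ≤ (q - 1) * (w + q) := mul_nonneg_of_nonpos_of_nonpos (by linarith) u1
      have v2 : 0 ≤ -((q - 1) * (w + 1)) := by
        have := mul_nonpos_of_nonpos_of_nonneg (show q - 1 ≤ 0 by linarith) u2
        linarith
      have v3 : 0 ≤ (-a) * (-((q - 1) * (w + 1))) := mul_nonneg (by linarith) v2
      rcases eq_or_lt_of_le u2 with h3 | h3
      · have hw1 : w = -1 := by linarith
        subst hw1
        have : 0 < (q - 1) * (-1 + q) := by nlinarith
        linarith
      · have v4 : 0 < -((q - 1) * (w + 1)) := by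
          have := mul_neg_of_neg_of_pos (show q - 1 < 0 by linarith) h3
          linarith
        have v5 : 0 < (-a) * (-((q - 1) * (w + 1))) := mul_pos (by linarith) v4
        linarith
    · have u1 : 0 ≤ w + q := by
        by_contra hcon
        push Not at hcon
        have : w + 1 < 0 := by linarith
        have := mul_pos_of_neg_of_neg this hcon
        linarith
      have u2 : w + 1 ≤ 0 := by
        by_contra hcon
        push Not at hcon
        have : 0 < w + q := by linarith
        have := mul_pos hcon this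
        linarith
      rw [id1]
      have v1 : 0 ≤ (q - 1) * (w + q) := mul_nonneg (by linarith) u1
      have v2 : 0 ≤ -((q - 1) * (w + 1)) := by
        have := mul_nonpos_of_nonneg_of_nonpos (show 0 ≤ q - 1 by linarith) u2
        linarith
      have v3 : 0 ≤ (-a) * (-((q - 1) * (w + 1))) := mul_nonneg (by linarith) v2
      rcases eq_or_lt_of_le u2 with h3 | h3
      · have hw1 : w = -1 := by linarith
        subst hw1
        have : 0 < (q - 1) * (-1 + q) := by nlinarith
        linarith
      · have v4 : 0 < -((q - 1) * (w + 1)) := by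
          have := mul_neg_of_pos_of_neg (show 0 < q - 1 by linarith) h3
          linarith
        have v5 : 0 < (-a) * (-((q - 1) * (w + 1))) := mul_pos (by linarith) v4
        linarith
  obtain ⟨-, a2⟩ := Conn.root h he hne hc
  rw [Z_eq hq.ne' h he hne hc o.ne, ← a2]
  have o1 := o.1
  rw [sg_add_one] at o1
  have e : sg (r S) * ((1 - q) * (b0 q v r S {e0} / q *
      ((q + q * b1 q v r S {e0} / b0 q v r S {e0}) +
        v e0 * (1 + q * b1 q v r S {e0} / b0 q v r S {e0})))) =
      (-sg (r S) * b0 q v r S {e0}) * ((q - 1) * ((q + q * b1 q v r S {e0} / b0 q v r S {e0}) +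
        v e0 * (1 + q * b1 q v r S {e0} / b0 q v r S {e0}))) / q := by ring
  rw [e]
  exact div_pos (mul_pos o1 hgood) hq

end Pool.Agent.Lib.MP_c21bd4_co
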