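import Mathlib
import Pool.Agent.Lib.MP_c21bd4_co.Asym

set_option autoImplicit false

/-!
The bridge from multigraphs to matroid rank functions.
-/

namespace Pool.Agent.Lib.MP_c21bd4_co

open Finset

/-- the simple graph of an edge set -/
def gr {n N : ℕ} (s t : Fin N → Fin n) (A : Finset (Fin N)) : SimpleGraph (Fin n) :=
  SimpleGraph.fromRel fun x y => ∃ e ∈ A, s e = x ∧ t e = y

/-- potentials constant along the edges of `A` -/
def W {n N : ℕ} (s t : Fin N → Fin n) (A : Finset (Fin N)) : Submodule ℝ (Fin n → ℝ) where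
  carrier := {x | ∀ e ∈ A, x (s e) = x (t e)}
  add_mem' := by
    intro a b ha hb e he
    simp only [Pi.add_apply, ha e he, hb e he]
  zero_mem' := by intro e _; rfl
  smul_mem' := by
    intro c a ha e he
    simp only [Pi.smul_apply, ha e he]

lemma mem_W {n N : ℕ} {s t : Fin N → Fin n} {A : Finset (Fin N)} {x : Fin n → ℝ} :
    x ∈ W s t A ↔ ∀ e ∈ A, x (s e) = x (t e) := Iff.rfl

lemma eq_of_reachable {V α : Type*} {G : SimpleGraph V} {f : V → α}
    (hf : ∀ a b, G.Adj a b → f a = f b) {a b : V} (h : G.Reachable a b) : f a = f b := by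
  obtain ⟨p⟩ := h
  induction p with
  | nil => rfl
  | cons hadj _ ih => exact (hf _ _ hadj).trans ih

lemma const_of_W {n N : ℕ} {s t : Fin N → Fin n} {A : Finset (Fin N)} {x : Fin n → ℝ}
    (hx : x ∈ W s t A) {a b : Fin n} (h : (gr s t A).Adj a b) : x a = x b := by
  unfold gr at h
  rw [SimpleGraph.fromRel_adj] at h
  rcases h.2 with ⟨e, he, rfl, rfl⟩ | ⟨e, he, rfl, rfl⟩
  · exact hx e he
  · exact (hx e he).symm

lemma card_comp {n N : ℕ} (s t : Fin N → Fin n) (A : Finset (Fin N)) :
    Nat.card (gr s t A).ConnectedComponent = Module.finrank ℝ (W s t A) := by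
  classical
  have hfin : Finite (gr s t A).ConnectedComponent := Quot.finite _
  let _ : Fintype (gr s t A).ConnectedComponent := Fintype.ofFinite _
  set Φ : ((gr s t A).ConnectedComponent → ℝ) →ₗ[ℝ] (Fin n → ℝ) :=
    LinearMap.funLeft ℝ ℝ (gr s t A).connectedComponentMk with hΦ
  have hinj : Function.Injective Φ := by
    apply LinearMap.funLeft_injective_of_surjective
    intro c
    exact Quot.exists_rep c
  have hrange : LinearMap.range Φ = W s t A := by
    apply le_antisymm
    · rintro _ ⟨f, rfl⟩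
      rw [mem_W]
      intro e he
      simp only [hΦ, LinearMap.funLeft_apply]
      congr 1
      by_cases hst : s e = t e
      · rw [hst]
      · apply SimpleGraph.ConnectedComponent.sound
        apply SimpleGraph.Adj.reachable
        unfold gr
        rw [SimpleGraph.fromRel_adj]
        exact ⟨hst, Or.inl ⟨e, he, rfl, rfl⟩⟩
    · intro x hx
      refine ⟨fun c => Quot.lift x ?_ c, ?_⟩
      · intro a b hab
        exact eq_of_reachable (fun a b h => const_of_W hx h) hab
      · ext i
        rfl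
  rw [← hrange, LinearMap.finrank_range_of_inj hinj, Module.finrank_fintype_fun_eq_card,
    Nat.card_eq_fintype_card]

/-- rank function of the graph -/
noncomputable def rk {n N : ℕ} (s t : Fin N → Fin n) (A : Finset (Fin N)) : ℤ :=
  n - Module.finrank ℝ (W s t A)

lemma W_anti {n N : ℕ} {s t : Fin N → Fin n} {A B : Finset (Fin N)} (h : A ⊆ B) :
    W s t B ≤ W s t A := fun _ hx e he => hx e (h he)

lemma W_union {n N : ℕ} {s t : Fin N → Fin n} (A B : Finset (Fin N)) :
    W s t (A ∪ B) = W s t A ⊓ W s t B := by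
  ext x
  simp only [Submodule.mem_inf, mem_W, mem_union]
  constructor
  · intro h; exact ⟨fun e he => h e (Or.inl he), fun e he => h e (Or.inr he)⟩
  · rintro ⟨h1, h2⟩ e (he | he)
    · exact h1 e he
    · exact h2 e he

lemma rk_Rk {n N : ℕ} (s t : Fin N → Fin n) : Rk (rk s t) where
  empty := by
    have : W s t ∅ = ⊤ := by
      ext x; simp [mem_W]
    unfold rk
    rw [this, finrank_top, Module.finrank_fintype_fun_eq_card, Fintype.card_fin]
    ring
  mono := by
    intro A B h
    have := Submodule.finrank_mono (W_anti (s := s) (t := t) h)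
    unfold rk
    omega
  submod := by
    intro A B
    have h1 := Submodule.finrank_sup_add_finrank_inf_eq (W s t A) (W s t B)
    have h2 : W s t A ⊔ W s t B ≤ W s t (A ∩ B) :=
      sup_le (W_anti inter_subset_left) (W_anti inter_subset_right)
    have h3 := Submodule.finrank_mono h2
    unfold rk
    rw [W_union]
    omega
  single := by
    intro e
    set φ : (Fin n → ℝ) →ₗ[ℝ] ℝ := (LinearMap.proj (s e) : (Fin n → ℝ) →ₗ[ℝ] ℝ) - LinearMap.proj (t e) with hφ
    have hker : LinearMap.ker φ = W s t {e} := by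
      ext x
      simp [hφ, mem_W, LinearMap.mem_ker, sub_eq_zero]
    have h1 := LinearMap.finrank_range_add_finrank_ker φ
    have h2 : Module.finrank ℝ (LinearMap.range φ) ≤ 1 := by
      have := Submodule.finrank_le (LinearMap.range φ)
      rwa [Module.finrank_self] at this
    rw [Module.finrank_fintype_fun_eq_card, Fintype.card_fin, hker] at h1
    unfold rk
    omega

lemma gr_univ {n N : ℕ} (s t : Fin N → Fin n) :
    gr s t univ = SimpleGraph.fromRel fun x y => ∃ e, s e = x ∧ t e = y := by
  unfold gr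
  congr 1
  ext x y
  simp

lemma adj_gr_univ {n N : ℕ} {s t : Fin N → Fin n} {a b : Fin n}
    (h : (SimpleGraph.fromRel fun x y => ∃ e, s e = x ∧ t e = y).Adj a b) :
    ∃ e, (s e = a ∧ t e = b) ∨ (s e = b ∧ t e = a) := by
  rw [SimpleGraph.fromRel_adj] at h
  rcases h.2 with ⟨e, h1, h2⟩ | ⟨e, h1, h2⟩
  · exact ⟨e, Or.inl ⟨h1, h2⟩⟩
  · exact ⟨e, Or.inr ⟨h1, h2⟩⟩

lemma rk_Conn {n N : ℕ} {s t : Fin N → Fin n} (hl : ∀ e, s e ≠ t e)
    (hc : (SimpleGraph.fromRel fun x y => ∃ e, s e = x ∧ t e = y).Connected)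
    (h2 : ∀ u : Fin n, (SimpleGraph.induce {w : Fin n | w ≠ u}
          (SimpleGraph.fromRel fun x y => ∃ e, s e = x ∧ t e = y)).Connected) :
    Conn (rk s t) univ := by
  classical
  apply Conn.mk'
  intro A B hAB hd hA hB
  -- a vertex incident with both classes
  obtain ⟨u, eA, heA, hAu, eB, heB, hBu⟩ : ∃ u, ∃ eA ∈ A, (s eA = u ∨ t eA = u) ∧
      ∃ eB ∈ B, (s eB = u ∨ t eB = u) := by
    by_contra hcon
    push Not at hcon
    let f : Fin n → Prop := fun u => ∃ e ∈ A, s e = u ∨ t e = u
    have hf : ∀ a b, (SimpleGraph.fromRel fun x y => ∃ e, s e = x ∧ t e = y).Adj a b →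
        f a = f b := by
      intro a b hab
      obtain ⟨e, he⟩ := adj_gr_univ hab
      have heAB : e ∈ A ∪ B := hAB ▸ mem_univ e
      rcases mem_union.mp heAB with h | h
      · have fa : f a := ⟨e, h, by rcases he with ⟨h1, h2⟩ | ⟨h1, h2⟩ <;> simp [h1, h2]⟩
        have fb : f b := ⟨e, h, by rcases he with ⟨h1, h2⟩ | ⟨h1, h2⟩ <;> simp [h1, h2]⟩
        exact propext ⟨fun _ => fb, fun _ => fa⟩
      · have nfa : ¬ f a := by
          rintro ⟨e', he', hea⟩
          have := hcon a e' he' hea e h
          rcases he with ⟨h1, h2⟩ | ⟨h1, h2⟩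
          · exact this.1 h1
          · exact this.2 h2
        have nfb : ¬ f b := by
          rintro ⟨e', he', hea⟩
          have := hcon b e' he' hea e h
          rcases he with ⟨h1, h2⟩ | ⟨h1, h2⟩
          · exact this.2 h2
          · exact this.1 h1
        exact propext ⟨fun h' => absurd h' nfa, fun h' => absurd h' nfb⟩
    obtain ⟨a, ha⟩ := hA
    obtain ⟨b, hb⟩ := hB
    have fa : f (s a) := ⟨a, ha, Or.inl rfl⟩
    have fb : f (s b) := by
      rw [← eq_of_reachable hf (hc.preconnected (s a) (s b))]; exact fa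
    obtain ⟨e', he', hea⟩ := fb
    exact (hcon (s b) e' he' hea b hb).1 rfl
  have hne : W s t A ⊔ W s t B ≠ ⊤ := by
    intro htop
    have hu : (Pi.single u (1 : ℝ) : Fin n → ℝ) ∈ W s t A ⊔ W s t B := by
      rw [htop]; exact Submodule.mem_top
    obtain ⟨x, hx, y, hy, hxy⟩ := Submodule.mem_sup.mp hu
    have hzero : ∀ w, w ≠ u → x w + y w = 0 := by
      intro w hw
      have := congrFun hxy w
      rw [Pi.add_apply, Pi.single_eq_of_ne hw] at this
      exact this
    have hone : x u + y u = 1 := by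
      have := congrFun hxy u
      rw [Pi.add_apply, Pi.single_eq_same] at this
      exact this
    -- `x` is constant away from `u`
    have hconst : ∀ a b : Fin n, a ≠ u → b ≠ u → x a = x b := by
      intro a b ha hb
      have hreach := (h2 u).preconnected ⟨a, ha⟩ ⟨b, hb⟩
      refine eq_of_reachable (f := fun w : {w : Fin n | w ≠ u} => x w) ?_ hreach
      rintro ⟨c, hcu⟩ ⟨d, hdu⟩ hcd
      rw [SimpleGraph.induce_adj] at hcd
      obtain ⟨e, he⟩ := adj_gr_univ hcd
      have heAB : e ∈ A ∪ B := hAB ▸ mem_univ e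
      simp only at he ⊢
      have hc0 := hzero c hcu
      have hd0 := hzero d hdu
      rcases mem_union.mp heAB with h | h
      · have := hx e h
        rcases he with ⟨h1, h2⟩ | ⟨h1, h2⟩
        · rw [h1, h2] at this; exact this
        · rw [h1, h2] at this; exact this.symm
      · have := hy e h
        rcases he with ⟨h1, h2⟩ | ⟨h1, h2⟩
        · rw [h1, h2] at this; linarith
        · rw [h1, h2] at this; linarith
    -- other ends of the two edges at `u`
    obtain ⟨a, ha, hxa⟩ : ∃ a, a ≠ u ∧ x u = x a := by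
      have := hx eA heA
      rcases hAu with h | h
      · refine ⟨t eA, ?_, ?_⟩
        · rw [← h]; exact (hl eA).symm
        · rw [← h]; exact this
      · refine ⟨s eA, ?_, ?_⟩
        · rw [← h]; exact hl eA
        · rw [← h]; exact this.symm
    obtain ⟨b, hb, hyb⟩ : ∃ b, b ≠ u ∧ y u = y b := by
      have := hy eB heB
      rcases hBu with h | h
      · refine ⟨t eB, ?_, ?_⟩
        · rw [← h]; exact (hl eB).symm
        · rw [← h]; exact this
      · refine ⟨s eB, ?_, ?_⟩
        · rw [← h]; exact hl eB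
        · rw [← h]; exact this.symm
    have e1 := hconst a b ha hb
    have e2 := hzero b hb
    linarith
  have h1 := Submodule.finrank_sup_add_finrank_inf_eq (W s t A) (W s t B)
  have h3 : Module.finrank ℝ (W s t A ⊔ W s t B : Submodule ℝ (Fin n → ℝ)) < n := by
    have := Submodule.finrank_lt hne
    rwa [Module.finrank_fintype_fun_eq_card, Fintype.card_fin] at this
  unfold rk
  rw [← hAB, W_union]
  omega

lemma rk_univ {n N : ℕ} {s t : Fin N → Fin n}
    (hc : (SimpleGraph.fromRel fun x y => ∃ e, s e = x ∧ t e = y).Connected) :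
    rk s t univ = n - 1 := by
  unfold rk
  rw [← card_comp, gr_univ]
  have : Nat.card (SimpleGraph.fromRel fun x y => ∃ e, s e = x ∧ t e = y).ConnectedComponent
      = 1 := by
    rw [Nat.card_eq_one_iff_unique]
    refine ⟨hc.preconnected.subsingleton_connectedComponent, ?_⟩
    obtain ⟨a⟩ := hc.nonempty
    exact ⟨SimpleGraph.connectedComponentMk _ a⟩
  rw [this]; simp

/-- the sign statement in terms of `Z` -/
lemma sum_eq {n N : ℕ} {s t : Fin N → Fin n} {q : ℝ} (hq : q ≠ 0) (v : Fin N → ℝ) :
    ∑ A : Finset (Fin N),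
      q ^ Nat.card (SimpleGraph.fromRel fun x y => ∃ e ∈ A, s e = x ∧ t e = y).ConnectedComponent
        * ∏ e ∈ A, v e = q ^ n * Z q v (rk s t) univ := by
  unfold Z
  rw [powerset_univ, mul_sum]
  refine sum_congr rfl fun A _ => ?_
  have h1 : Nat.card (SimpleGraph.fromRel fun x y => ∃ e ∈ A, s e = x ∧ t e = y).ConnectedComponent
      = Module.finrank ℝ (W s t A) := card_comp s t A
  rw [h1]
  unfold wt rk
  rw [show -((n : ℤ) - (Module.finrank ℝ (W s t A) : ℤ)) =
    -(n : ℤ) + (Module.finrank ℝ (W s t A) : ℤ) by ring, zpow_add₀ hq, zpow_neg, zpow_natCast,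
    zpow_natCast]
  field_simp

/-- the sign property of the problem for one weighted graph -/
def SignProp (q : ℝ) {n N : ℕ} (s t : Fin N → Fin n) (v : Fin N → ℝ) : Prop :=
  0 < (-1 : ℝ) ^ (n + if q < 1 then 1 else 0) *
        ∑ A : Finset (Fin N),
          q ^ Nat.card (SimpleGraph.fromRel fun x y => ∃ e ∈ A, s e = x ∧ t e = y).ConnectedComponent
            * ∏ e ∈ A, v e

lemma signProp_of {n N : ℕ} {s t : Fin N → Fin n} {q : ℝ} (hq : 0 < q) (v : Fin N → ℝ)
    (hc : (SimpleGraph.fromRel fun x y => ∃ e, s e = x ∧ t e = y).Connected)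
    (h : 0 < sg (rk s t univ) * ((1 - q) * Z q v (rk s t) univ)) : SignProp q s t v := by
  unfold SignProp
  rw [sum_eq hq.ne', rk_univ hc] at *
  rw [sg_sub_one] at h
  have e : sg (n : ℤ) = (-1 : ℝ) ^ n := by unfold sg; rw [zpow_natCast]
  rw [e] at h
  have hqn : 0 < q ^ n := by positivity
  split_ifs with hlt
  · have : (-1 : ℝ) ^ (n + 1) * (q ^ n * Z q v (rk s t) univ) =
        (-(-1 : ℝ) ^ n * ((1 - q) * Z q v (rk s t) univ)) * (q ^ n / (1 - q)) := by
      have : (1 - q) ≠ 0 := by linarith
      field_simp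
      ring
    rw [this]
    exact mul_pos h (div_pos hqn (by linarith))
  · have hq1 : q ≠ 1 := by
      rintro rfl
      simp at h
    have h' : 1 < q := lt_of_le_of_ne (not_lt.mp hlt) (Ne.symm hq1)
    have : (-1 : ℝ) ^ (n + 0) * (q ^ n * Z q v (rk s t) univ) =
        (-(-1 : ℝ) ^ n * ((1 - q) * Z q v (rk s t) univ)) * (q ^ n / (q - 1)) := by
      have h1 : (1 - q) ≠ 0 := by linarith
      have h2 : (q - 1) ≠ 0 := by linarith
      rw [add_zero]
      field_simp
      ring
    rw [this]
    exact mul_pos h (div_pos hqn (by linarith))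

end Pool.Agent.Lib.MP_c21bd4_co
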