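import Mathlib
import Pool.Agent.Lib.MP_c21bd4_co.Graph

set_option autoImplicit false

/-!
The construction of the intervals.
-/

namespace Pool.Agent.Lib.MP_c21bd4_co

open Finset

/-- facts about the middle root -/
lemma root_info {q vp w : ℝ} (hq : 0 < q) (hvp : vp < 0)
    (h1 : vp ^ 3 - 2 * q * vp - q ^ 2 = 0) (hw : w < vp) (h2 : w ^ 3 - 2 * q * w - q ^ 2 = 0) :
    -(3 / 4) * q < vp ∧ vp < -q / 2 ∧
      ∀ x, w < x → x < vp → 0 < x ^ 3 - 2 * q * x - q ^ 2 := by
  have hne : vp - w ≠ 0 := by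
    intro h'; linarith
  have e1 : vp ^ 2 + vp * w + w ^ 2 = 2 * q := by
    have : (vp - w) * (vp ^ 2 + vp * w + w ^ 2 - 2 * q) = 0 := by linear_combination h1 - h2
    rcases mul_eq_zero.mp this with h | h
    · exact absurd h hne
    · linarith
  have e2 : q ^ 2 = -(vp * w * (vp + w)) := by linear_combination (-1) * h1 + vp * e1
  have hw0 : w < 0 := hw.trans hvp
  have f1 : vp ^ 2 < vp * w := by nlinarith
  have f2 : vp ^ 2 < w ^ 2 := by nlinarith
  have f3 : 3 * vp ^ 2 < 2 * q := by linarith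
  have hvpne := hvp.ne
  have f4 : 0 < vp ^ 2 := by positivity
  have e3 : vp * (2 * q - vp ^ 2) = -q ^ 2 := by linear_combination (-1) * h1
  refine ⟨?_, ?_, ?_⟩
  · by_contra hcon
    push Not at hcon
    have g1 : 4 / 3 * q < 2 * q - vp ^ 2 := by linarith
    have g2 : vp * (2 * q - vp ^ 2) < -(3 / 4) * q * (4 / 3 * q) := by nlinarith
    nlinarith
  · by_contra hcon
    push Not at hcon
    have g1 : 2 * q - vp ^ 2 < 2 * q := by linarith
    have g0 : 0 < 2 * q - vp ^ 2 := by linarith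
    have g2 : -(q / 2) * (2 * q) < vp * (2 * q - vp ^ 2) := by nlinarith
    nlinarith
  · intro x hx1 hx2
    have e4 : x ^ 3 - 2 * q * x - q ^ 2 = (vp - x) * (x - w) * (-(x + vp + w)) := by
      rw [e2, ← e1]; ring
    rw [e4]
    apply mul_pos
    · apply mul_pos <;> linarith
    · linarith

/-- the sign property for all two-connected multigraphs with at least `m` edges and weights in
`J q x` -/
def Gd (q x : ℝ) (m : ℕ) : Prop :=
  ∀ n N : ℕ, ∀ s t : Fin N → Fin n,
      (∀ e, s e ≠ t e) → 2 ≤ N → m ≤ N →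
      (SimpleGraph.fromRel fun x y => ∃ e, s e = x ∧ t e = y).Connected →
      (∀ u : Fin n, (SimpleGraph.induce {w : Fin n | w ≠ u}
          (SimpleGraph.fromRel fun x y => ∃ e, s e = x ∧ t e = y)).Connected) →
      ∀ v : Fin N → ℝ, (∀ e, v e ∈ J q x) → SignProp q s t v

lemma self_mem_J {q x : ℝ} (hx : x < 0) (h1 : -1 ≤ x) (h2 : -q ≤ x) : x ∈ J q x := by
  rw [mem_J_iff hx]
  refine ⟨?_, le_rfl⟩
  nlinarith

theorem main_thm (q : ℝ) (hq : (0 < q ∧ q < 1) ∨ (1 < q ∧ q < 32 / 27)) (vp : ℝ) (hvp : vp < 0)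
    (hroot : vp ^ 3 - 2 * q * vp - q ^ 2 = 0) (hw : ∃ w : ℝ, w < vp ∧
      w ^ 3 - 2 * q * w - q ^ 2 = 0) :
    ∃ I : ℕ → Set ℝ,
    (∀ m : ℕ, 2 ≤ m → (I m).Nonempty ∧ (I m).OrdConnected ∧ BddBelow (I m) ∧
        I m ⊆ Set.Iio 0 ∧ ∀ v ∈ I m, q / v ∈ I m) ∧
    (∀ m : ℕ, 2 ≤ m → I m ⊆ I (m + 1)) ∧
    Filter.Tendsto (fun m => sInf (I m)) Filter.atTop (nhds (q / vp)) ∧
    Filter.Tendsto (fun m => sSup (I m)) Filter.atTop (nhds vp) ∧
    ∀ m : ℕ, 2 ≤ m → ∀ n N : ℕ, ∀ s t : Fin N → Fin n,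
      (∀ e, s e ≠ t e) → 2 ≤ N → m ≤ N →
      (SimpleGraph.fromRel fun x y => ∃ e, s e = x ∧ t e = y).Connected →
      (∀ u : Fin n, (SimpleGraph.induce {w : Fin n | w ≠ u}
          (SimpleGraph.fromRel fun x y => ∃ e, s e = x ∧ t e = y)).Connected) →
      ∀ v : Fin N → ℝ, (∀ e, v e ∈ I m) → SignProp q s t v := by
  obtain ⟨w, hwvp, hwroot⟩ := hw
  have hq0 : 0 < q := by rcases hq with h | h <;> linarith
  have hq1 : q ≠ 1 := by rcases hq with h | h <;> intro h' <;> linarith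
  have hq32 : q < 32 / 27 := by rcases hq with h | h <;> linarith
  obtain ⟨r1, r2, r3⟩ := root_info hq0 hvp hroot hwvp hwroot
  have hvp1 : -1 < vp := by linarith
  have hvpq : -q < vp := by linarith
  have hav : Adm q vp := ⟨hq0, hvp, hvp1.le, hvpq.le, hroot.ge⟩
  have hmin : 0 < min 1 q := lt_min one_pos hq0
  have hminvp : -(min 1 q) < vp := by
    rcases le_total 1 q with h' | h'
    · rw [min_eq_left h']; exact hvp1
    · rw [min_eq_right h']; exact hvpq
  -- the two sources of goodness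
  have gcent : ∀ m, Gd q (-(min 1 q)) m := by
    intro m n N s t hl hN _ hc h2 v hv
    apply signProp_of hq0 v hc
    exact good_central hav hq1 hvp1 hvpq (rk s t) v univ (rk_Rk s t) (rk_Conn hl hc h2)
      (by rw [card_univ, Fintype.card_fin]; exact hN) (fun e _ => hv e)
  have glarge : ∀ x, max w (-(min 1 q)) < x → x < vp → ∃ K, ∀ m, K ≤ m → Gd q x m := by
    intro x hx hxv
    obtain ⟨hx1, hx2⟩ := max_lt_iff.mp hx
    have hx3 : -1 < x := by
      have : -1 ≤ -(min 1 q) := neg_le_neg (min_le_left 1 q)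
      linarith
    have hx4 : -q < x := by
      have : -q ≤ -(min 1 q) := neg_le_neg (min_le_right 1 q)
      linarith
    obtain ⟨K, hK⟩ := good_large hav hq1 hvp1 hvpq hxv hx3 hx4 (r3 x hx1 hxv)
      (fun _ => by linarith)
    refine ⟨K, ?_⟩
    intro m hm n N s t hl hN hmN hc h2 v hv
    apply signProp_of hq0 v hc
    exact hK (Fin N) (rk s t) v univ (rk_Rk s t) (rk_Conn hl hc h2)
      (by rw [card_univ, Fintype.card_fin]; exact hN) (fun e _ => hv e)
      (by rw [card_univ, Fintype.card_fin]; omega)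
  -- the intervals
  let Xs : ℕ → Set ℝ := fun m => {x | -(min 1 q) ≤ x ∧ x < vp ∧ Gd q x m}
  let I : ℕ → Set ℝ := fun m => {v | ∃ x ∈ Xs m, v ∈ J q x}
  have hXs : ∀ m x, x ∈ Xs m ↔ -(min 1 q) ≤ x ∧ x < vp ∧ Gd q x m := fun m x => Iff.rfl
  have hI : ∀ m v, v ∈ I m ↔ ∃ x ∈ Xs m, v ∈ J q x := fun m v => Iff.rfl
  have hself : ∀ x, -(min 1 q) ≤ x → x < vp → x ∈ J q x := by
    intro x hx hxv
    apply self_mem_J (hxv.trans hvp)
    · have : -1 ≤ -(min 1 q) := neg_le_neg (min_le_left 1 q)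
      linarith
    · have : -q ≤ -(min 1 q) := neg_le_neg (min_le_right 1 q)
      linarith
  have hcen : ∀ m, -(min 1 q) ∈ Xs m := fun m => ⟨le_rfl, hminvp, gcent m⟩
  have hne : ∀ m, (I m).Nonempty := fun m =>
    ⟨-(min 1 q), -(min 1 q), hcen m, hself _ le_rfl hminvp⟩
  have hsub : ∀ m v, v ∈ I m → v < vp ∧ q / vp ≤ v := by
    intro m v hv
    obtain ⟨x, hx, hv⟩ := hv
    refine ⟨lt_of_le_of_lt hv.2 hx.2.1, ?_⟩
    exact (J_mono hq0 hvp hx.2.1.le hv).1
  have hbb : ∀ m, BddBelow (I m) := fun m => ⟨q / vp, fun v hv => (hsub m v hv).2⟩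
  have hba : ∀ m, BddAbove (I m) := fun m => ⟨vp, fun v hv => (hsub m v hv).1.le⟩
  have hdual : ∀ m, ∀ v ∈ I m, q / v ∈ I m := by
    intro m v hv
    obtain ⟨x, hx, hv⟩ := hv
    exact ⟨x, hx, inv_mem hq0 (hx.2.1.trans hvp) hv⟩
  -- members near the end point
  have hnear : ∀ x, max w (-(min 1 q)) < x → x < vp → ∃ K, ∀ m, K ≤ m → x ∈ I m := by
    intro x hx hxv
    obtain ⟨K, hK⟩ := glarge x hx hxv
    have hx2 : -(min 1 q) ≤ x := ((le_max_right _ _).trans_lt hx).le
    exact ⟨K, fun m hm => ⟨x, ⟨hx2, hxv, hK m hm⟩, hself x hx2 hxv⟩⟩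
  have hmaxvp : max w (-(min 1 q)) < vp := max_lt hwvp hminvp
  refine ⟨I, ?_, ?_, ?_, ?_, ?_⟩
  · intro m _
    refine ⟨hne m, ?_, hbb m, ?_, hdual m⟩
    · rw [Set.ordConnected_iff]
      intro a ha b hb _
      obtain ⟨x, hx, hax⟩ := ha
      obtain ⟨y, hy, hby⟩ := hb
      have hmx : max x y ∈ Xs m := by
        rcases le_total x y with h' | h'
        · rw [max_eq_right h']; exact hy
        · rw [max_eq_left h']; exact hx
      have hneg : max x y < 0 := hmx.2.1.trans hvp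
      have ha' := J_mono hq0 hneg (le_max_left x y) hax
      have hb' := J_mono hq0 hneg (le_max_right x y) hby
      intro z hz
      exact ⟨max x y, hmx, ⟨ha'.1.trans hz.1, hz.2.trans hb'.2⟩⟩
    · intro v hv
      exact (hsub m v hv).1.trans hvp
  · intro m _ v hv
    obtain ⟨x, hx, hv⟩ := hv
    refine ⟨x, ⟨hx.1, hx.2.1, ?_⟩, hv⟩
    intro n N s t hl hN hmN
    exact hx.2.2 n N s t hl hN (by omega)
  · rw [tendsto_order]
    constructor
    · intro a ha
      exact Filter.Eventually.of_forall fun m =>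
        lt_of_lt_of_le ha (le_csInf (hne m) fun v hv => (hsub m v hv).2)
    · intro a ha
      have hcont : ContinuousAt (fun x : ℝ => q / x) vp :=
        continuousAt_const.div continuousAt_id hvp.ne
      have hev : ∀ᶠ x in nhds vp, q / x < a := hcont.eventually_lt continuousAt_const ha
      obtain ⟨l, u, ⟨hl, hu⟩, hlu⟩ := mem_nhds_iff_exists_Ioo_subset.mp hev
      obtain ⟨x, hx1, hx2⟩ := exists_between (max_lt hmaxvp hl)
      obtain ⟨K, hK⟩ := hnear x ((le_max_left _ _).trans_lt hx1) hx2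
      filter_upwards [Filter.eventually_ge_atTop K] with m hm
      have h1 : q / x < a := hlu ⟨(le_max_right _ _).trans_lt hx1, hx2.trans hu⟩
      exact lt_of_le_of_lt (csInf_le (hbb m) (hdual m x (hK m hm))) h1
  · rw [tendsto_order]
    constructor
    · intro a ha
      obtain ⟨x, hx1, hx2⟩ := exists_between (max_lt hmaxvp ha)
      obtain ⟨K, hK⟩ := hnear x ((le_max_left _ _).trans_lt hx1) hx2
      filter_upwards [Filter.eventually_ge_atTop K] with m hm
      exact lt_of_lt_of_le ((le_max_right _ _).trans_lt hx1) (le_csSup (hba m) (hK m hm))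
    · intro a ha
      exact Filter.Eventually.of_forall fun m =>
        lt_of_le_of_lt (csSup_le (hne m) fun v hv => (hsub m v hv).1.le) ha
  · intro m _ n N s t hl hN hmN hc h2 v hv
    choose xe hxe hvxe using hv
    obtain ⟨e1, -, he1⟩ := Finset.exists_max_image (univ : Finset (Fin N)) xe
      ⟨⟨0, by omega⟩, mem_univ _⟩
    have hneg : xe e1 < 0 := (hxe e1).2.1.trans hvp
    exact (hxe e1).2.2 n N s t hl hN hmN hc h2 v
      (fun e => J_mono hq0 hneg (he1 e (mem_univ e)) (hvxe e))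

end Pool.Agent.Lib.MP_c21bd4_co
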